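import Pool.Agent.BCS.Stmts

/-!
# Row SCD of squad BCS: scalar curvature of diagonal metrics (MP_fb4904_gt, helper49)
-/

noncomputable section

open scoped ContDiff Topology
open Set

namespace Pool.Agent.BCS.H49

open Pool.Agent.SecondKind Pool.Agent.RLim.H58

variable {n : ℕ}

theorem curv_self (h : Coord n) (i k m : Fin n) (y : Fin n → ℝ) : curv h i i k m y = 0 := by
  unfold curv
  simp

theorem curv_dg_ne (w : Fin n → (Fin n → ℝ) → ℝ) (hw : ∀ i, ContDiff ℝ ∞ (w i))
    (y : Fin n → ℝ) {i j : Fin n} (hij : i ≠ j) :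
    Real.exp (-(2 * w j y)) * curv (dg w) i j j i y =
      -(Real.exp (-(2 * w i y)) * (pd i (pd i (w j)) y + pd i (w j) y ^ 2
          - 2 * (pd i (w i) y * pd i (w j) y)))
      - Real.exp (-(2 * w j y)) * (pd j (pd j (w i)) y + pd j (w i) y ^ 2
          - 2 * (pd j (w j) y * pd j (w i) y))
      - ∑ p, Real.exp (-(2 * w p y)) * (pd p (w i) y * pd p (w j) y) := by
  have hd : ∀ i, DifferentiableAt ℝ (w i) y := fun i =>
    (hw i).contDiffAt.differentiableAt (by simp)
  have hji : ¬ j = i := fun h => hij h.symm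
  have hC := fun k i j => christoffel_dg w hd k i j
  have hD := fun l k i j => pd_christoffel_dg w isOpen_univ (fun i => (hw i).contDiffOn)
    (mem_univ y) l k i j
  have e0 : ∀ a : Fin n, Real.exp (2 * (w a y - w a y)) = 1 := by intro a; simp
  unfold curv
  have s1 : ∑ p, christoffel (dg w) i i p y * christoffel (dg w) p j j y =
      2 * (pd j (w i) y * pd j (w j) y)
        - ∑ p, Real.exp (2 * (w j y - w p y)) * (pd p (w i) y * pd p (w j) y) := by
    have : ∀ p, christoffel (dg w) i i p y * christoffel (dg w) p j j y =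
        (if p = j then 2 * (pd j (w i) y * pd j (w j) y) else 0)
        - Real.exp (2 * (w j y - w p y)) * (pd p (w i) y * pd p (w j) y) := by
      intro p
      rw [hC, hC]
      by_cases h1 : p = j
      · subst h1
        simp only [if_true, hij, if_false, e0]
        ring
      · by_cases h2 : i = p
        · subst h2
          simp only [if_true, hij, if_false, e0]
          ring
        · simp only [if_true, h1, h2, if_false]
          ring
    simp only [this, Finset.sum_sub_distrib, Finset.sum_ite_eq', Finset.mem_univ, if_true]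
  have s2 : ∑ p, christoffel (dg w) i j p y * christoffel (dg w) p i j y =
      pd j (w i) y ^ 2 - Real.exp (2 * (w j y - w i y)) * pd i (w j) y ^ 2 := by
    have : ∀ p, christoffel (dg w) i j p y * christoffel (dg w) p i j y =
        (if p = i then pd j (w i) y ^ 2 else 0)
        - (if p = j then Real.exp (2 * (w j y - w i y)) * pd i (w j) y ^ 2 else 0) := by
      intro p
      rw [hC, hC]
      by_cases h1 : p = i
      · subst h1
        simp only [if_true, hij, hji, if_false]
        ring
      · by_cases h2 : p = j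
        · subst h2
          simp only [if_true, hij, hji, if_false]
          ring
        · have h1' : ¬ i = p := fun h => h1 h.symm
          have h2' : ¬ j = p := fun h => h2 h.symm
          simp only [h1, h2, h1', h2', hij, if_false]
          ring
    simp only [this, Finset.sum_sub_distrib, Finset.sum_ite_eq', Finset.mem_univ, if_true]
  rw [Finset.sum_sub_distrib, s1, s2, hD, hD]
  simp only [hij, if_true, if_false]
  have e1 : Real.exp (-(2 * w j y)) * Real.exp (2 * (w j y - w i y)) = Real.exp (-(2 * w i y)) := by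
    rw [← Real.exp_add]; ring_nf
  have e2 : ∑ p, Real.exp (-(2 * w p y)) * (pd p (w i) y * pd p (w j) y) =
      Real.exp (-(2 * w j y)) *
        ∑ p, Real.exp (2 * (w j y - w p y)) * (pd p (w i) y * pd p (w j) y) := by
    rw [Finset.mul_sum]
    refine Finset.sum_congr rfl fun p _ => ?_
    rw [← mul_assoc (Real.exp (-(2 * w j y))), ← Real.exp_add]
    ring_nf
  rw [e2, ← e1]
  ring

theorem alg_sum (e : Fin n → ℝ) (D d : Fin n → Fin n → ℝ) :
    ∑ j, ∑ i, ((-(e i * (D i j + d i j ^ 2 - 2 * (d i i * d i j)))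
      - e j * (D j i + d j i ^ 2 - 2 * (d j j * d j i)) - ∑ p, e p * (d p i * d p j))
      - (if i = j then (-2 * (e j * (D j j - d j j ^ 2)) - ∑ p, e p * d p j ^ 2) else 0)) =
    -∑ i, e i * ((∑ j ∈ Finset.univ.erase i, (2 * D i j - 2 * d i i * d i j + d i j ^ 2))
      + (∑ j ∈ Finset.univ.erase i, d i j) ^ 2) := by
  have h1 : ∑ j, ∑ i, e i * (D i j + d i j ^ 2 - 2 * (d i i * d i j)) =
      ∑ i, e i * (∑ j, D i j + ∑ j, d i j ^ 2 - 2 * (d i i * ∑ j, d i j)) := by
    rw [Finset.sum_comm]
    refine Finset.sum_congr rfl fun i _ => ?_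
    rw [← Finset.mul_sum, Finset.sum_sub_distrib, Finset.sum_add_distrib, ← Finset.mul_sum,
      ← Finset.mul_sum]
  have h2 : ∑ j, ∑ i, e j * (D j i + d j i ^ 2 - 2 * (d j j * d j i)) =
      ∑ i, e i * (∑ j, D i j + ∑ j, d i j ^ 2 - 2 * (d i i * ∑ j, d i j)) := by
    refine Finset.sum_congr rfl fun i _ => ?_
    rw [← Finset.mul_sum, Finset.sum_sub_distrib, Finset.sum_add_distrib, ← Finset.mul_sum,
      ← Finset.mul_sum]
  have h3 : ∑ j, ∑ i, ∑ p, e p * (d p i * d p j) = ∑ p, e p * (∑ j, d p j) ^ 2 := by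
    have : ∀ j, ∑ i, ∑ p, e p * (d p i * d p j) = ∑ p, e p * ((∑ i, d p i) * d p j) := by
      intro j
      rw [Finset.sum_comm]
      refine Finset.sum_congr rfl fun p _ => ?_
      rw [← Finset.mul_sum, ← Finset.sum_mul]
    simp only [this]
    rw [Finset.sum_comm]
    refine Finset.sum_congr rfl fun p _ => ?_
    rw [← Finset.mul_sum, ← Finset.mul_sum, pow_two]
  have h4 : ∑ j, ∑ p, e p * d p j ^ 2 = ∑ p, e p * ∑ j, d p j ^ 2 := by
    rw [Finset.sum_comm]
    refine Finset.sum_congr rfl fun p _ => ?_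
    rw [← Finset.mul_sum]
  have h5 : ∀ i, e i * ((∑ j ∈ Finset.univ.erase i, (2 * D i j - 2 * d i i * d i j + d i j ^ 2))
      + (∑ j ∈ Finset.univ.erase i, d i j) ^ 2) =
      e i * (2 * ∑ j, D i j + ∑ j, d i j ^ 2 - 4 * (d i i * ∑ j, d i j) + (∑ j, d i j) ^ 2
        - 2 * D i i + 2 * d i i ^ 2) := by
    intro i
    rw [Finset.sum_erase_eq_sub (Finset.mem_univ i), Finset.sum_erase_eq_sub (Finset.mem_univ i),
      Finset.sum_add_distrib, Finset.sum_sub_distrib, ← Finset.mul_sum, ← Finset.mul_sum]
    ring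
  simp only [Finset.sum_sub_distrib, Finset.sum_neg_distrib, Finset.sum_ite_eq',
    Finset.mem_univ, if_true]
  rw [h1, h2, h3, h4]
  simp only [h5]
  rw [← Finset.mul_sum, ← Finset.sum_neg_distrib, ← Finset.sum_sub_distrib,
    ← Finset.sum_sub_distrib, Finset.mul_sum, ← Finset.sum_sub_distrib,
    ← Finset.sum_sub_distrib, ← Finset.sum_neg_distrib]
  refine Finset.sum_congr rfl fun i _ => ?_
  ring

/-- row SCD -/
theorem scd : ScdStmt := by
  intro n w hw y
  have h1 : scal (dg w) y = ∑ j, ∑ i, Real.exp (-(2 * w j y)) * curv (dg w) i j j i y := by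
    unfold scal
    refine Finset.sum_congr rfl fun j _ => ?_
    rw [Finset.sum_eq_single j]
    · rw [inv_dg]
      simp only [if_true]
      unfold ricci
      rw [Finset.mul_sum]
    · intro k _ hk
      have : ¬ j = k := fun h => hk h.symm
      rw [inv_dg]
      simp [this]
    · intro h; exact absurd (Finset.mem_univ j) h
  have h2 : ∀ j i : Fin n, Real.exp (-(2 * w j y)) * curv (dg w) i j j i y =
      (-(Real.exp (-(2 * w i y)) * (pd i (pd i (w j)) y + pd i (w j) y ^ 2
          - 2 * (pd i (w i) y * pd i (w j) y)))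
      - Real.exp (-(2 * w j y)) * (pd j (pd j (w i)) y + pd j (w i) y ^ 2
          - 2 * (pd j (w j) y * pd j (w i) y))
      - ∑ p, Real.exp (-(2 * w p y)) * (pd p (w i) y * pd p (w j) y))
      - (if i = j then (-2 * (Real.exp (-(2 * w j y)) * (pd j (pd j (w j)) y
          - pd j (w j) y ^ 2)) - ∑ p, Real.exp (-(2 * w p y)) * pd p (w j) y ^ 2) else 0) := by
    intro j i
    by_cases hij : i = j
    · subst hij
      rw [curv_self]
      simp only [if_true, ← pow_two]
      ring
    · rw [curv_dg_ne w hw y hij]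
      simp only [hij, if_false, sub_zero]
  rw [h1]
  simp only [h2]
  exact alg_sum (fun p => Real.exp (-(2 * w p y))) (fun p j => pd p (pd p (w j)) y)
    (fun p j => pd p (w j) y)

end Pool.Agent.BCS.H49
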