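import Pool.Agent.Helper49_BCS.BlkD
import Pool.Agent.Helper46_BCS.HMB
import Pool.Agent.Helper49_BCS.SCD

/-!
# Row BLK of squad BCS: the scalar curvature of `e^{2φ(z)} |dz|² + h(z,t)` (helper49)
-/

set_option linter.unusedSectionVars false

noncomputable section

open scoped ContDiff Topology
open Set

namespace Pool.Agent.BCS.H49

open Pool.Agent.SecondKind (Coord pd inv christoffel ricci curv)

variable {m : ℕ}

/-! ### algebra -/

theorem algX (H S SS A : Fin m → Fin m → ℝ) (hH : ∀ i j, H i j = H j i)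
    (hS : ∀ i j, S i j = S j i) (hA : ∀ s t, A s t = ∑ l, H s l * S t l) (E f : ℝ) :
    ∑ j, ∑ k, H j k * (E * (f * S j k - (1 / 2) * SS j k) + 2 * f * (-(1 / 2) * (E * S j k))
      - (1 / 2) * ∑ t, (-(1 / 2) * (E * S j t)) * A t k
      + ∑ s, (1 / 2) * (A s s * (-(1 / 2) * (E * S j k)) - A s j * (-(1 / 2) * (E * S s k)))) =
    E * (-(1 / 2) * ∑ j, ∑ k, H j k * SS j k + (1 / 2) * ∑ s, ∑ t, A s t * A t s
      - (1 / 4) * (∑ s, A s s) ^ 2) := by
  have P1 : ∑ j, ∑ k, H j k * S j k = ∑ s, A s s :=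
    Finset.sum_congr rfl fun s _ => (hA s s).symm
  have P2 : ∑ j, ∑ k, H j k * ∑ t, S j t * A t k = ∑ s, ∑ t, A s t * A t s := by
    rw [Finset.sum_comm]
    refine Finset.sum_congr rfl fun k _ => ?_
    have e1 : ∀ j, H j k * ∑ t, S j t * A t k = ∑ t, H k j * S t j * A t k := by
      intro j
      rw [Finset.mul_sum]
      refine Finset.sum_congr rfl fun t _ => ?_
      rw [hH j k, hS j t]
      ring
    simp only [e1]
    rw [Finset.sum_comm]
    refine Finset.sum_congr rfl fun t _ => ?_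
    rw [hA k t, Finset.sum_mul]
  have P3 : ∑ j, ∑ k, H j k * ∑ s, A s j * S s k = ∑ s, ∑ t, A s t * A t s := by
    have e1 : ∀ j, ∑ k, H j k * ∑ s, A s j * S s k = ∑ s, A s j * A j s := by
      intro j
      have e2 : ∀ k, H j k * ∑ s, A s j * S s k = ∑ s, A s j * (H j k * S s k) := by
        intro k
        rw [Finset.mul_sum]
        refine Finset.sum_congr rfl fun s _ => ?_
        ring
      simp only [e2]
      rw [Finset.sum_comm]
      refine Finset.sum_congr rfl fun s _ => ?_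
      rw [hA j s, Finset.mul_sum]
    simp only [e1]
    rw [Finset.sum_comm]
  have key : ∀ j k, H j k * (E * (f * S j k - (1 / 2) * SS j k)
      + 2 * f * (-(1 / 2) * (E * S j k))
      - (1 / 2) * ∑ t, (-(1 / 2) * (E * S j t)) * A t k
      + ∑ s, (1 / 2) * (A s s * (-(1 / 2) * (E * S j k)) - A s j * (-(1 / 2) * (E * S s k)))) =
      (-(1 / 2) * E) * (H j k * SS j k) + (1 / 4 * E) * (H j k * ∑ t, S j t * A t k)
      - (1 / 4 * E * ∑ s, A s s) * (H j k * S j k)
      + (1 / 4 * E) * (H j k * ∑ s, A s j * S s k) := by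
    intro j k
    have i1 : ∑ t, (-(1 / 2) * (E * S j t)) * A t k = (-(1 / 2) * E) * ∑ t, S j t * A t k := by
      rw [Finset.mul_sum]
      refine Finset.sum_congr rfl fun t _ => ?_
      ring
    have i2 : ∑ s, (1 / 2) * (A s s * (-(1 / 2) * (E * S j k))
        - A s j * (-(1 / 2) * (E * S s k))) = (-(1 / 4) * E * S j k) * ∑ s, A s s
        + (1 / 4 * E) * ∑ s, A s j * S s k := by
      rw [Finset.mul_sum, Finset.mul_sum, ← Finset.sum_add_distrib]
      refine Finset.sum_congr rfl fun s _ => ?_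
      ring
    rw [i1, i2]
    ring
  rw [Finset.sum_congr rfl fun j _ => Finset.sum_congr rfl fun k _ => key j k]
  simp only [Finset.sum_add_distrib, Finset.sum_sub_distrib, ← Finset.mul_sum]
  rw [P1, P2, P3]
  ring

/-! ### derivative of the inverse -/

section deriv

variable {h : ℂ → Coord m} (hh : FibM h) (v z : ℂ) (t : Fin m → ℝ)

include hh

theorem sm_lvol : Sm (lvol h) := (H99.gsm m h hh).2.smooth

theorem tr_am : ∑ s, Am h v s s z t = 2 * Dd v (lvol h) z t := by
  have h1 := H46.lvol_hasFDerivAt hh z t v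
  have h2 : Dd v (lvol h) z t = 1 / 2 * ∑ s, Am h v s s z t := h1
  rw [h2]
  ring

theorem hi_symm (i j : Fin m) : hi h i j z t = hi h j i z t := by
  have hs : (Matrix.of (h z t)).transpose = Matrix.of (h z t) := by
    ext a b
    exact hh.symm z t b a
  have h1 : ((Matrix.of (h z t))⁻¹).transpose = (Matrix.of (h z t))⁻¹ := by
    rw [Matrix.transpose_nonsing_inv, hs]
  exact congrFun (congrFun h1 j) i

theorem dhe_symm (i j : Fin m) : Dd v (he h i j) z t = Dd v (he h j i) z t := by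
  have e : he h i j = he h j i := by
    funext z t
    exact hh.symm z t i j
  rw [e]

theorem dinv : Matrix.of (fun i j => Dd v (hi h i j) z t) =
    -((Matrix.of (h z t))⁻¹ * Matrix.of (fun i j => Dd v (he h i j) z t)
      * (Matrix.of (h z t))⁻¹) := by
  have hdet : ∀ z t, (Matrix.of (h z t)).det ≠ 0 := fun z t => ((H99.gsm m h hh).1 z t).ne'
  have hmul : Matrix.of (h z t) * (Matrix.of (h z t))⁻¹ = 1 :=
    Matrix.mul_nonsing_inv _ (isUnit_iff_ne_zero.2 (hdet z t))
  have h1 : Matrix.of (fun i j => Dd v (hi h i j) z t) * Matrix.of (h z t)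
      + (Matrix.of (h z t))⁻¹ * Matrix.of (fun i j => Dd v (he h i j) z t) = 0 := by
    ext i k
    rw [Matrix.add_apply, Matrix.mul_apply, Matrix.mul_apply, ← Finset.sum_add_distrib]
    have h2 : (fun z t => ∑ l, hi h i l z t * he h l k z t) =
        fun (_ : ℂ) (_ : Fin m → ℝ) => (1 : Matrix (Fin m) (Fin m) ℝ) i k := by
      funext z t
      have hmul' : (Matrix.of (h z t))⁻¹ * Matrix.of (h z t) = 1 :=
        Matrix.nonsing_inv_mul _ (isUnit_iff_ne_zero.2 (hdet z t))
      have h3 := congrFun (congrFun hmul' i) k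
      rw [Matrix.mul_apply] at h3
      exact h3
    have h4 := Dd_sum (F := fun l z t => hi h i l z t * he h l k z t)
      (fun l => (sm_hi hh i l).mul (sm_he hh l k)) v z t
    rw [h2] at h4
    have h5 : Dd v (fun (_ : ℂ) (_ : Fin m → ℝ) => (1 : Matrix (Fin m) (Fin m) ℝ) i k) z t = 0 := by
      unfold Dd
      simp
    rw [h5] at h4
    rw [Matrix.zero_apply, h4]
    refine Finset.sum_congr rfl fun l _ => ?_
    rw [Dd_mul (sm_hi hh i l) (sm_he hh l k)]
    simp only [Matrix.of_apply]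
    unfold hi he inv
    ring
  have h2 : Matrix.of (fun i j => Dd v (hi h i j) z t) * Matrix.of (h z t) =
      -((Matrix.of (h z t))⁻¹ * Matrix.of (fun i j => Dd v (he h i j) z t)) :=
    eq_neg_of_add_eq_zero_left h1
  calc Matrix.of (fun i j => Dd v (hi h i j) z t) =
      Matrix.of (fun i j => Dd v (hi h i j) z t) * (Matrix.of (h z t) * (Matrix.of (h z t))⁻¹) := by
        rw [hmul, mul_one]
    _ = -((Matrix.of (h z t))⁻¹ * Matrix.of (fun i j => Dd v (he h i j) z t))
        * (Matrix.of (h z t))⁻¹ := by rw [← mul_assoc, h2]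
    _ = _ := by rw [neg_mul]

theorem am_mul (s x : Fin m) : Am h v s x z t =
    ((Matrix.of (h z t))⁻¹ * Matrix.of (fun i j => Dd v (he h i j) z t)) s x := by
  rw [Matrix.mul_apply]
  refine Finset.sum_congr rfl fun l _ => ?_
  rw [dhe_symm hh v z t x l]
  rfl

theorem q_trq : trq (h z t) (fun i j => Dd v (he h i j) z t) =
    ∑ s, ∑ x, Am h v s x z t * Am h v x s z t := by
  unfold trq
  rw [Matrix.trace]
  refine Finset.sum_congr rfl fun s _ => ?_
  rw [Matrix.diag_apply, Matrix.mul_apply]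
  refine Finset.sum_congr rfl fun x _ => ?_
  rw [am_mul hh, am_mul hh]

theorem ddinv : ∑ j, ∑ k, Dd v (hi h j k) z t * Dd v (he h j k) z t =
    -∑ s, ∑ x, Am h v s x z t * Am h v x s z t := by
  rw [← q_trq hh]
  unfold trq
  rw [← mul_assoc, ← Matrix.trace_neg, ← neg_mul, ← dinv hh]
  rw [Matrix.trace]
  refine Finset.sum_congr rfl fun j _ => ?_
  rw [Matrix.diag_apply, Matrix.mul_apply]
  refine Finset.sum_congr rfl fun k _ => ?_
  rw [dhe_symm hh v z t j k]
  rfl

theorem dd_am : ∑ s, Dd v (Am h v s s) z t = 2 * Dd v (Dd v (lvol h)) z t := by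
  rw [← Dd_sum (fun s => sm_am hh v s s) v z t, ← Dd_cmul ((sm_lvol hh).dd v)]
  have e : (fun z t => ∑ s, Am h v s s z t) = fun z t => 2 * Dd v (lvol h) z t := by
    funext z t
    exact tr_am hh v z t
  rw [e]

theorem hess : ∑ j, ∑ k, hi h j k z t * Dd v (Dd v (he h j k)) z t =
    2 * Dd v (Dd v (lvol h)) z t + ∑ s, ∑ x, Am h v s x z t * Am h v x s z t := by
  have h1 : ∀ s, Dd v (Am h v s s) z t = ∑ l, (hi h s l z t * Dd v (Dd v (he h s l)) z t +
      Dd v (hi h s l) z t * Dd v (he h s l) z t) := by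
    intro s
    have h2 := Dd_sum (F := fun l z t => hi h s l z t * Dd v (he h s l) z t)
      (fun l => (sm_hi hh s l).mul ((sm_he hh s l).dd v)) v z t
    have h3 : Dd v (Am h v s s) z t =
      Dd v (fun z t => ∑ l, hi h s l z t * Dd v (he h s l) z t) z t := rfl
    rw [h3, h2]
    refine Finset.sum_congr rfl fun l _ => ?_
    rw [Dd_mul (sm_hi hh s l) ((sm_he hh s l).dd v)]
    ring
  have h4 := dd_am hh v z t
  simp only [h1, Finset.sum_add_distrib] at h4
  rw [ddinv hh] at h4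
  linarith

end deriv

/-! ### assembly -/

section assembly

variable {φ : ℂ → ℝ} {h : ℂ → Coord m} (hφ : ContDiff ℝ ∞ φ) (hh : FibM h)
  (y : Fin (m + 2) → ℝ)

/-- the contribution of one direction of the base -/
def Xv (φ : ℂ → ℝ) (h : ℂ → Coord m) (v z : ℂ) (t : Fin m → ℝ) (j k : Fin m) : ℝ :=
  Dd v (Bm φ h v j k) z t + 2 * fderiv ℝ φ z v * Bm φ h v j k z t
    - (1 / 2) * ∑ x, Bm φ h v j x z t * Am h v x k z t
    + ∑ s, (1 / 2) * (Am h v s s z t * Bm φ h v j k z t - Am h v s j z t * Bm φ h v s k z t)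

include hφ hh

theorem Xsum (v z : ℂ) (t : Fin m → ℝ) : ∑ j, ∑ k, hi h j k z t * Xv φ h v z t j k =
    Real.exp (-2 * φ z) * (-Dd v (Dd v (lvol h)) z t - Dd v (lvol h) z t ^ 2) := by
  have h1 := algX (fun j k => hi h j k z t) (fun j k => Dd v (he h j k) z t)
    (fun j k => Dd v (Dd v (he h j k)) z t) (fun s x => Am h v s x z t)
    (hi_symm hh z t) (dhe_symm hh v z t) (fun s x => rfl) (Real.exp (-2 * φ z)) (fderiv ℝ φ z v)
  rw [hess hh, tr_am hh] at h1
  have h2 : ∑ j, ∑ k, hi h j k z t * Xv φ h v z t j k = ∑ j, ∑ k, hi h j k z t *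
      (Real.exp (-2 * φ z) * (fderiv ℝ φ z v * Dd v (he h j k) z t
        - (1 / 2) * Dd v (Dd v (he h j k)) z t)
      + 2 * fderiv ℝ φ z v * (-(1 / 2) * (Real.exp (-2 * φ z) * Dd v (he h j k) z t))
      - (1 / 2) * ∑ x, (-(1 / 2) * (Real.exp (-2 * φ z) * Dd v (he h j x) z t)) * Am h v x k z t
      + ∑ s, (1 / 2) * (Am h v s s z t * (-(1 / 2) * (Real.exp (-2 * φ z) * Dd v (he h j k) z t))
        - Am h v s j z t * (-(1 / 2) * (Real.exp (-2 * φ z) * Dd v (he h s k) z t)))) := by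
    refine Finset.sum_congr rfl fun j _ => Finset.sum_congr rfl fun k _ => ?_
    unfold Xv
    rw [Db hφ hh]
    rfl
  rw [h2]
  refine h1.trans ?_
  ring

theorem ric00 : ricci (blk φ h) 0 0 y + ricci (blk φ h) 1 1 y = -2 * lap φ (pr y)
    - lap (fun z => lvol h z (tl y)) (pr y)
    - (1 / 4) * (trq (h (pr y) (tl y)) (fun i j => dx (fun z => h z (tl y) i j) (pr y))
        + trq (h (pr y) (tl y)) (fun i j => dy (fun z => h z (tl y) i j) (pr y))) := by
  have e1 : ricci (blk φ h) 0 0 y = -lap φ (pr y) + ∑ s : Fin m,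
      (-(1 / 2) * Dd 1 (Am h 1 s s) (pr y) (tl y)
      + (1 / 2) * Am h 1 s s (pr y) (tl y) * dx φ (pr y)
      - (1 / 2) * Am h Complex.I s s (pr y) (tl y) * dy φ (pr y)
      - (1 / 4) * ∑ t, Am h 1 s t (pr y) (tl y) * Am h 1 t s (pr y) (tl y)) := by
    unfold ricci
    rw [sum2, curv_self, R1001 hφ hh]
    simp only [Rs00s hφ hh]
    ring
  have e2 : ricci (blk φ h) 1 1 y = -lap φ (pr y) + ∑ s : Fin m,
      (-(1 / 2) * Dd Complex.I (Am h Complex.I s s) (pr y) (tl y)
      - (1 / 2) * Am h 1 s s (pr y) (tl y) * dx φ (pr y)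
      + (1 / 2) * Am h Complex.I s s (pr y) (tl y) * dy φ (pr y)
      - (1 / 4) * ∑ t, Am h Complex.I s t (pr y) (tl y) * Am h Complex.I t s (pr y) (tl y)) := by
    unfold ricci
    rw [sum2, curv_self, R0110 hφ hh]
    simp only [Rs11s hφ hh]
    ring
  have q1 : trq (h (pr y) (tl y)) (fun i j => dx (fun z => h z (tl y) i j) (pr y)) =
      ∑ s, ∑ x, Am h 1 s x (pr y) (tl y) * Am h 1 x s (pr y) (tl y) :=
    q_trq hh 1 (pr y) (tl y)
  have q2 : trq (h (pr y) (tl y)) (fun i j => dy (fun z => h z (tl y) i j) (pr y)) =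
      ∑ s, ∑ x, Am h Complex.I s x (pr y) (tl y) * Am h Complex.I x s (pr y) (tl y) :=
    q_trq hh Complex.I (pr y) (tl y)
  have l1 : lap (fun z => lvol h z (tl y)) (pr y) = Dd 1 (Dd 1 (lvol h)) (pr y) (tl y)
      + Dd Complex.I (Dd Complex.I (lvol h)) (pr y) (tl y) := rfl
  have d1 := dd_am hh 1 (pr y) (tl y)
  have d2 := dd_am hh Complex.I (pr y) (tl y)
  rw [e1, e2, q1, q2, l1]
  simp only [Finset.sum_add_distrib, Finset.sum_sub_distrib, ← Finset.mul_sum, ← Finset.sum_mul]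
  rw [d1, d2]
  ring

theorem ricss (j k : Fin m) : ricci (blk φ h) j.succ.succ k.succ.succ y =
    Xv φ h 1 (pr y) (tl y) j k + Xv φ h Complex.I (pr y) (tl y) j k
      + ricci (h (pr y)) j k (tl y) := by
  unfold ricci
  rw [sum2, R0jk0 hφ hh, R1jk1 hφ hh]
  simp only [Rsjks hφ hh, Finset.sum_add_distrib]
  unfold Xv
  have e1 : fderiv ℝ φ (pr y) 1 = dx φ (pr y) := rfl
  have e2 : fderiv ℝ φ (pr y) Complex.I = dy φ (pr y) := rfl
  rw [e1, e2]
  ring

theorem scal_split : scal (blk φ h) y = Real.exp (-2 * φ (pr y)) *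
    (ricci (blk φ h) 0 0 y + ricci (blk φ h) 1 1 y) + ∑ j : Fin m, ∑ k : Fin m,
      hi h j k (pr y) (tl y) * ricci (blk φ h) j.succ.succ k.succ.succ y := by
  have e1 : ∀ i : Fin m, ∑ k, inv (blk φ h) i.succ.succ k y * ricci (blk φ h) i.succ.succ k y =
      ∑ k : Fin m, hi h i k (pr y) (tl y) * ricci (blk φ h) i.succ.succ k.succ.succ y := by
    intro i
    rw [sum2, invs0 hh, invs1 hh]
    simp only [invss hh]
    ring
  have e2 : ∑ k, inv (blk φ h) 0 k y * ricci (blk φ h) 0 k y =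
      Real.exp (-2 * φ (pr y)) * ricci (blk φ h) 0 0 y := by
    rw [sum2, inv00 hh, inv01 hh]
    simp [inv0s hh]
  have e3 : ∑ k, inv (blk φ h) 1 k y * ricci (blk φ h) 1 k y =
      Real.exp (-2 * φ (pr y)) * ricci (blk φ h) 1 1 y := by
    rw [sum2, inv10 hh, inv11 hh]
    simp [inv1s hh]
  unfold scal
  rw [sum2, e2, e3]
  simp only [e1]
  ring

end assembly

/-- BLK -/
theorem blk_row : BlkStmt := by
  intro m φ h hφ hh y
  rw [scal_split hφ hh, ric00 hφ hh]
  simp only [ricss hφ hh, mul_add, Finset.sum_add_distrib]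
  rw [Xsum hφ hh, Xsum hφ hh]
  have e1 : scal (h (pr y)) (tl y) = ∑ j, ∑ k, hi h j k (pr y) (tl y) *
    ricci (h (pr y)) j k (tl y) := rfl
  have e2 : grad2 (fun z => lvol h z (tl y)) (pr y) = Dd 1 (lvol h) (pr y) (tl y) ^ 2
      + Dd Complex.I (lvol h) (pr y) (tl y) ^ 2 := rfl
  have l1 : lap (fun z => lvol h z (tl y)) (pr y) = Dd 1 (Dd 1 (lvol h)) (pr y) (tl y)
      + Dd Complex.I (Dd Complex.I (lvol h)) (pr y) (tl y) := rfl
  have e3 : -(2 * φ (pr y)) = -2 * φ (pr y) := by ring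
  rw [← e1, e2, l1, e3]
  ring

end Pool.Agent.BCS.H49
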