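import Pool.Agent.BCS.Stmts3
import Pool.Agent.Helper17_BCS.CNS
import Pool.Agent.Helper46_BCS.HMB
import Pool.Agent.Helper62_BCS.FIB

/-!
# Row IBK of squad BCS: integration by parts for a metric with constant determinant (helper49)
-/

set_option linter.unusedSectionVars false

noncomputable section

open scoped ContDiff Topology
open Set MeasureTheory

namespace Pool.Agent.BCS.H49

open Pool.Agent.SecondKind (Coord pd inv christoffel ricci)
open Pool.Agent.RLim.H58 (pd_mul pd_exp pd_const pd_const_mul)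

theorem alg_chr {m : ℕ} (H : Fin m → Fin m → ℝ) (D : Fin m → Fin m → Fin m → ℝ)
    (hH : ∀ i j, H i j = H j i) (hT : ∀ p, ∑ i, ∑ j, H i j * D p i j = 0) (l : Fin m) :
    ∑ i, ∑ j, H i j * ∑ p, H l p * (D i j p + D j i p - D p i j) / 2 =
      ∑ i, ∑ b, (∑ a, H i a * D i a b) * H b l := by
  have e1 : ∀ i j, H i j * ∑ p, H l p * (D i j p + D j i p - D p i j) / 2 =
      ∑ p, ((1 / 2) * (H i j * H l p * D i j p) + (1 / 2) * (H i j * H l p * D j i p)
        - (1 / 2) * (H i j * H l p * D p i j)) := by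
    intro i j
    rw [Finset.mul_sum]
    refine Finset.sum_congr rfl fun p _ => ?_
    ring
  simp only [e1, Finset.sum_add_distrib, Finset.sum_sub_distrib, ← Finset.mul_sum]
  have t2 : ∑ i, ∑ j, ∑ p, H i j * H l p * D j i p = ∑ i, ∑ j, ∑ p, H i j * H l p * D i j p := by
    rw [Finset.sum_comm]
    refine Finset.sum_congr rfl fun j _ => Finset.sum_congr rfl fun i _ =>
      Finset.sum_congr rfl fun p _ => ?_
    rw [hH i j]
  have t3 : ∑ i, ∑ j, ∑ p, H i j * H l p * D p i j = 0 := by
    have e2 : ∀ i, ∑ j, ∑ p, H i j * H l p * D p i j = ∑ p, H l p * ∑ j, H i j * D p i j := by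
      intro i
      rw [Finset.sum_comm]
      refine Finset.sum_congr rfl fun p _ => ?_
      rw [Finset.mul_sum]
      refine Finset.sum_congr rfl fun j _ => ?_
      ring
    simp only [e2]
    rw [Finset.sum_comm]
    simp only [← Finset.mul_sum, hT, mul_zero, Finset.sum_const_zero]
  have t1 : ∑ i, ∑ b, (∑ a, H i a * D i a b) * H b l = ∑ i, ∑ j, ∑ p, H i j * H l p * D i j p := by
    refine Finset.sum_congr rfl fun i _ => ?_
    have e3 : ∀ b, (∑ a, H i a * D i a b) * H b l = ∑ a, H i a * H l b * D i a b := by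
      intro b
      rw [Finset.sum_mul]
      refine Finset.sum_congr rfl fun a _ => ?_
      rw [hH b l]
      ring
    simp only [e3]
    rw [Finset.sum_comm]
  rw [t2, t3, t1]
  ring

section ibk

variable {m : ℕ} {k : Coord m} (hk : Met k)

theorem pd_fsum {m : ℕ} {F : Fin m → (Fin m → ℝ) → ℝ} {t : Fin m → ℝ}
    (h : ∀ i, DifferentiableAt ℝ (F i) t) (p : Fin m) :
    pd p (fun t => ∑ i, F i t) t = ∑ i, pd p (F i) t := by
  unfold pd
  rw [fderiv_fun_sum (fun i _ => h i)]
  simp

include hk

theorem k_det (t : Fin m → ℝ) : (Matrix.of (k t)).det ≠ 0 := H17.det_ne (hk.pos t)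

theorem k_inv (i j : Fin m) : ContDiff ℝ ∞ (inv k i j) :=
  H17.smooth_inv hk.smooth (k_det hk) i j

theorem k_diff (i j : Fin m) (t : Fin m → ℝ) : DifferentiableAt ℝ (fun t => k t i j) t :=
  (hk.smooth i j).differentiable (by simp) t

theorem k_idiff (i j : Fin m) (t : Fin m → ℝ) : DifferentiableAt ℝ (inv k i j) t :=
  (k_inv hk i j).differentiable (by simp) t

theorem k_isymm (t : Fin m → ℝ) (i j : Fin m) : inv k i j t = inv k j i t := by
  have hs : (Matrix.of (k t)).transpose = Matrix.of (k t) := by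
    ext a b
    exact hk.symm t b a
  have h1 : ((Matrix.of (k t))⁻¹).transpose = (Matrix.of (k t))⁻¹ := by
    rw [Matrix.transpose_nonsing_inv, hs]
  exact congrFun (congrFun h1 j) i

theorem k_dinv (p : Fin m) (t : Fin m → ℝ) (i l : Fin m) : pd p (inv k i l) t =
    -∑ b, (∑ a, inv k i a t * pd p (fun t => k t a b) t) * inv k b l t := by
  have hmul : Matrix.of (k t) * (Matrix.of (k t))⁻¹ = 1 :=
    Matrix.mul_nonsing_inv _ (isUnit_iff_ne_zero.2 (k_det hk t))
  have h1 : Matrix.of (fun i j => pd p (inv k i j) t) * Matrix.of (k t)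
      + (Matrix.of (k t))⁻¹ * Matrix.of (fun i j => pd p (fun t => k t i j) t) = 0 := by
    ext i c
    rw [Matrix.add_apply, Matrix.mul_apply, Matrix.mul_apply, ← Finset.sum_add_distrib]
    have h2 : (fun t => ∑ l, inv k i l t * k t l c) =
        fun _ => (1 : Matrix (Fin m) (Fin m) ℝ) i c := by
      funext t
      have hmul' : (Matrix.of (k t))⁻¹ * Matrix.of (k t) = 1 :=
        Matrix.nonsing_inv_mul _ (isUnit_iff_ne_zero.2 (k_det hk t))
      have h3 := congrFun (congrFun hmul' i) c
      rw [Matrix.mul_apply] at h3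
      exact h3
    have h4 := pd_fsum (F := fun l t => inv k i l t * k t l c) (t := t)
      (fun l => (k_idiff hk i l t).mul (k_diff hk l c t)) p
    rw [h2, pd_const] at h4
    rw [Matrix.zero_apply, h4]
    refine Finset.sum_congr rfl fun l _ => ?_
    rw [pd_mul (k_idiff hk i l t) (k_diff hk l c t)]
    simp only [Matrix.of_apply]
    unfold inv
    ring
  have h2 : Matrix.of (fun i j => pd p (inv k i j) t) * Matrix.of (k t) =
      -((Matrix.of (k t))⁻¹ * Matrix.of (fun i j => pd p (fun t => k t i j) t)) :=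
    eq_neg_of_add_eq_zero_left h1
  have h3 : Matrix.of (fun i j => pd p (inv k i j) t) =
      -((Matrix.of (k t))⁻¹ * Matrix.of (fun i j => pd p (fun t => k t i j) t)
        * (Matrix.of (k t))⁻¹) := by
    calc Matrix.of (fun i j => pd p (inv k i j) t) =
        Matrix.of (fun i j => pd p (inv k i j) t) * (Matrix.of (k t) * (Matrix.of (k t))⁻¹) := by
          rw [hmul, mul_one]
      _ = -((Matrix.of (k t))⁻¹ * Matrix.of (fun i j => pd p (fun t => k t i j) t))
          * (Matrix.of (k t))⁻¹ := by rw [← mul_assoc, h2]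
      _ = _ := by rw [neg_mul]
  have h4 := congrFun (congrFun h3 i) l
  rw [Matrix.of_apply, Matrix.neg_apply, Matrix.mul_apply] at h4
  rw [h4]
  congr 1

theorem k_tr {D : ℝ} (hD : ∀ t, (Matrix.of (k t)).det = D) (p : Fin m) (t : Fin m → ℝ) :
    ∑ i, ∑ j, inv k i j t * pd p (fun t => k t i j) t = 0 := by
  have h1 : HasFDerivAt (fun t => (Matrix.of (k t)).det)
      (∑ i, ∑ j, (Matrix.of (k t)).adjugate i j • fderiv ℝ (fun t => k t j i) t) t :=
    H46.det_hasFDerivAt (A := fun t => Matrix.of (k t)) (fun i j => (k_diff hk i j t).hasFDerivAt)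
  have h2 : (fun t => (Matrix.of (k t)).det) = fun _ => D := funext hD
  rw [h2] at h1
  have h3 := h1.unique (hasFDerivAt_const D t)
  have h4 := congrArg (fun L : (Fin m → ℝ) →L[ℝ] ℝ => L (Pi.single p 1)) h3
  simp only [sum_apply, smul_apply, smul_eq_mul, zero_apply] at h4
  have h5 : ∀ i j, inv k i j t * pd p (fun t => k t i j) t = ((Matrix.of (k t)).det)⁻¹ *
      ((Matrix.of (k t)).adjugate i j * (fderiv ℝ (fun t => k t j i) t) (Pi.single p 1)) := by
    intro i j
    have h6 : (fun t => k t j i) = fun t => k t i j := by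
      funext t
      exact hk.symm t j i
    rw [h6]
    unfold inv pd
    rw [Matrix.inv_def, Ring.inverse_eq_inv', Matrix.smul_apply, smul_eq_mul]
    ring
  simp only [h5, ← Finset.mul_sum]
  rw [h4, mul_zero]

theorem k_chr {D : ℝ} (hD : ∀ t, (Matrix.of (k t)).det = D) (t : Fin m → ℝ) (l : Fin m) :
    ∑ i, ∑ j, inv k i j t * christoffel k l i j t = -∑ i, pd i (inv k i l) t := by
  have h1 := alg_chr (fun i j => inv k i j t) (fun i a b => pd i (fun t => k t a b) t)
    (k_isymm hk t) (fun p => k_tr hk hD p t) l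
  have h2 : ∑ i, ∑ j, inv k i j t * christoffel k l i j t =
      ∑ i, ∑ j, inv k i j t * ∑ p, inv k l p t * (pd i (fun t => k t j p) t
        + pd j (fun t => k t i p) t - pd p (fun t => k t i j) t) / 2 := rfl
  rw [h2]
  refine h1.trans ?_
  rw [← Finset.sum_neg_distrib]
  refine Finset.sum_congr rfl fun i _ => ?_
  rw [k_dinv hk i t i l, neg_neg]

theorem k_lap {D : ℝ} (hD : ∀ t, (Matrix.of (k t)).det = D) {h : (Fin m → ℝ) → ℝ}
    (hh : ContDiff ℝ ∞ h) (t : Fin m → ℝ) :
    lapM k h t = ∑ i, pd i (fun t => ∑ j, inv k i j t * pd j h t) t := by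
  have h1 : ∀ j t, DifferentiableAt ℝ (pd j h) t := fun j t =>
    (H62.pd_smooth j hh).differentiable (by simp) t
  have h2 : ∀ i, pd i (fun t => ∑ j, inv k i j t * pd j h t) t =
      ∑ j, (inv k i j t * pd i (pd j h) t + pd i (inv k i j) t * pd j h t) := by
    intro i
    rw [pd_fsum (F := fun j t => inv k i j t * pd j h t)
      (fun j => (k_idiff hk i j t).mul (h1 j t)) i]
    exact Finset.sum_congr rfl fun j _ => pd_mul (k_idiff hk i j t) (h1 j t)
  simp only [h2, Finset.sum_add_distrib]
  unfold lapM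
  have h3 : ∀ i j, inv k i j t * (pd i (pd j h) t - ∑ l, christoffel k l i j t * pd l h t) =
      inv k i j t * pd i (pd j h) t - ∑ l, inv k i j t * christoffel k l i j t * pd l h t := by
    intro i j
    rw [mul_sub, Finset.mul_sum]
    congr 1
    exact Finset.sum_congr rfl fun l _ => by ring
  simp only [h3, Finset.sum_sub_distrib]
  have h4 : ∑ i, ∑ j, ∑ l, inv k i j t * christoffel k l i j t * pd l h t =
      -∑ i, ∑ j, pd i (inv k i j) t * pd j h t := by
    have h5 : ∀ i, ∑ j, ∑ l, inv k i j t * christoffel k l i j t * pd l h t =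
        ∑ l, (∑ j, inv k i j t * christoffel k l i j t) * pd l h t := by
      intro i
      rw [Finset.sum_comm]
      exact Finset.sum_congr rfl fun l _ => by rw [Finset.sum_mul]
    simp only [h5]
    rw [Finset.sum_comm]
    have h6 : ∑ i, ∑ j, pd i (inv k i j) t * pd j h t =
        ∑ j, (∑ i, pd i (inv k i j) t) * pd j h t := by
      rw [Finset.sum_comm]
      exact Finset.sum_congr rfl fun l _ => by rw [Finset.sum_mul]
    rw [h6, ← Finset.sum_neg_distrib]
    refine Finset.sum_congr rfl fun l _ => ?_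
    rw [← Finset.sum_mul, k_chr hk hD t l]
    ring
  rw [h4]
  ring

end ibk

/-- IBK -/
theorem ibk (hI : IbtStmt) : IbkStmt := by
  intro m k D h r hk hkp hD hh hhp
  have hs : ∀ i, ContDiff ℝ ∞ (pd i h) := fun i => H62.pd_smooth i hh
  have hV : ∀ i, ContDiff ℝ ∞ (fun t => ∑ j, inv k i j t * pd j h t) := fun i =>
    ContDiff.sum fun j _ => (k_inv hk i j).mul (hs j)
  have hexp : ContDiff ℝ ∞ (fun t => Real.exp (r * h t)) :=
    Real.contDiff_exp.comp (contDiff_const.mul hh)
  have hF : ∀ i, ContDiff ℝ ∞ (fun t => Real.exp (r * h t) * ∑ j, inv k i j t * pd j h t) :=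
    fun i => hexp.mul (hV i)
  have h0 : ∀ i, tI (pd i (fun t => Real.exp (r * h t) * ∑ j, inv k i j t * pd j h t)) = 0 := by
    intro i
    refine hI m _ i ((hF i).of_le (by exact_mod_cast le_top)) ?_
    intro t
    have e1 : ∀ j, inv k i j (t + Pi.single i 1) = inv k i j t := by
      intro j
      unfold inv
      rw [hkp t i]
    simp only [e1, hhp t i, H62.pd_per _ i hhp t]
  have hd : ∀ t, ∑ i, pd i (fun t => Real.exp (r * h t) * ∑ j, inv k i j t * pd j h t) t =
      Real.exp (r * h t) * lapM k h t + r * (Real.exp (r * h t) * gip k h h t) := by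
    intro t
    have d1 : DifferentiableAt ℝ (fun t => r * h t) t :=
      ((hh.differentiable (by simp)) t).const_mul r
    have e2 : ∀ i, pd i (fun t => Real.exp (r * h t) * ∑ j, inv k i j t * pd j h t) t =
        Real.exp (r * h t) * pd i (fun t => ∑ j, inv k i j t * pd j h t) t
        + r * (Real.exp (r * h t) * ∑ j, inv k i j t * pd i h t * pd j h t) := by
      intro i
      rw [pd_mul (d1.exp) ((hV i).differentiable (by simp) t), pd_exp d1,
        pd_const_mul r ((hh.differentiable (by simp)) t)]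
      have e3 : ∑ j, inv k i j t * pd i h t * pd j h t =
          pd i h t * ∑ j, inv k i j t * pd j h t := by
        rw [Finset.mul_sum]
        exact Finset.sum_congr rfl fun j _ => by ring
      rw [e3]
      ring
    simp only [e2, Finset.sum_add_distrib, ← Finset.mul_sum]
    rw [← k_lap hk hD hh t]
    rfl
  have hint : ∀ F : (Fin m → ℝ) → ℝ, Continuous F → IntegrableOn F (Icc (0 : Fin m → ℝ) 1) :=
    fun F hF => hF.continuousOn.integrableOn_compact isCompact_Icc
  have hsum : tI (fun t => ∑ i, pd i (fun t => Real.exp (r * h t) *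
      ∑ j, inv k i j t * pd j h t) t) = 0 := by
    unfold tI
    rw [integral_finsetSum]
    · exact Finset.sum_eq_zero fun i _ => h0 i
    · intro i _
      exact hint _ (H62.pd_smooth i (hF i)).continuous
  have hlap : ContDiff ℝ ∞ (lapM k h) := by
    have e : lapM k h = fun t => ∑ i, pd i (fun t => ∑ j, inv k i j t * pd j h t) t :=
      funext fun t => k_lap hk hD hh t
    rw [e]
    exact ContDiff.sum fun i _ => H62.pd_smooth i (hV i)
  have hgip : ContDiff ℝ ∞ (gip k h h) := by
    unfold gip
    exact ContDiff.sum fun i _ => ContDiff.sum fun j _ => ((k_inv hk i j).mul (hs i)).mul (hs j)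
  have hfun : (fun t => ∑ i, pd i (fun t => Real.exp (r * h t) *
      ∑ j, inv k i j t * pd j h t) t) = fun t => Real.exp (r * h t) * lapM k h t
        + r * (Real.exp (r * h t) * gip k h h t) := funext hd
  rw [hfun] at hsum
  unfold tI at hsum ⊢
  rw [integral_add (hint _ (hexp.mul hlap).continuous)
    (hint _ (contDiff_const.mul (hexp.mul hgip)).continuous), integral_const_mul] at hsum
  linarith

end Pool.Agent.BCS.H49
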