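import Pool.Agent.Helper49_BCS.BlgD
import Pool.Agent.Helper49_BCS.BLK
import Pool.Agent.Helper49_BCS.IBK

/-!
# Row BLG of squad BCS: the scalar curvature of `e^{2U(z,t)} |dz|² + h(z,t)` (helper49)
-/

set_option linter.unusedSectionVars false

noncomputable section

open scoped ContDiff Topology
open Set

namespace Pool.Agent.BCS.H49U

open Pool.Agent.BCS.H49
open Pool.Agent.SecondKind (Coord pd inv christoffel ricci curv)
open Pool.Agent.RLim.H58 (pd_mul pd_exp pd_const pd_const_mul)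

/-! ### the divergence of a gradient -/

theorem alg_chr2 {m : ℕ} (H : Fin m → Fin m → ℝ) (D : Fin m → Fin m → Fin m → ℝ)
    (hH : ∀ i j, H i j = H j i) (l : Fin m) :
    ∑ i, ∑ j, H i j * ∑ p, H l p * (D i j p + D j i p - D p i j) / 2 =
      ∑ i, ∑ b, (∑ a, H i a * D i a b) * H b l
        - (1 / 2) * ∑ p, H l p * ∑ i, ∑ j, H i j * D p i j := by
  have e1 : ∀ i j, H i j * ∑ p, H l p * (D i j p + D j i p - D p i j) / 2 =
      ∑ p, ((1 / 2) * (H i j * H l p * D i j p) + (1 / 2) * (H i j * H l p * D j i p)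
        - (1 / 2) * (H i j * H l p * D p i j)) := by
    intro i j
    rw [Finset.mul_sum]
    refine Finset.sum_congr rfl fun p _ => ?_
    ring
  simp only [e1, Finset.sum_add_distrib, Finset.sum_sub_distrib, ← Finset.mul_sum]
  have t2 : ∑ i, ∑ j, ∑ p, H i j * H l p * D j i p = ∑ i, ∑ j, ∑ p, H i j * H l p * D i j p := by
    rw [Finset.sum_comm]
    refine Finset.sum_congr rfl fun j _ => Finset.sum_congr rfl fun i _ =>
      Finset.sum_congr rfl fun p _ => ?_
    rw [hH i j]
  have t3 : ∑ i, ∑ j, ∑ p, H i j * H l p * D p i j = ∑ p, H l p * ∑ i, ∑ j, H i j * D p i j := by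
    have e2 : ∀ i, ∑ j, ∑ p, H i j * H l p * D p i j = ∑ p, H l p * ∑ j, H i j * D p i j := by
      intro i
      rw [Finset.sum_comm]
      refine Finset.sum_congr rfl fun p _ => ?_
      rw [Finset.mul_sum]
      refine Finset.sum_congr rfl fun j _ => ?_
      ring
    simp only [e2]
    rw [Finset.sum_comm]
    exact Finset.sum_congr rfl fun p _ => by rw [Finset.mul_sum]
  have t1 : ∑ i, ∑ b, (∑ a, H i a * D i a b) * H b l = ∑ i, ∑ j, ∑ p, H i j * H l p * D i j p := by
    refine Finset.sum_congr rfl fun i _ => ?_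
    have e3 : ∀ b, (∑ a, H i a * D i a b) * H b l = ∑ a, H i a * H l b * D i a b := by
      intro b
      rw [Finset.sum_mul]
      refine Finset.sum_congr rfl fun a _ => ?_
      rw [hH b l]
      ring
    simp only [e3]
    rw [Finset.sum_comm]
  rw [t2, t3, t1]
  ring

theorem alg_tr {m : ℕ} (H : Fin m → Fin m → ℝ) (D : Fin m → Fin m → Fin m → ℝ)
    (hH : ∀ i j, H i j = H j i) (hD : ∀ i j l, D i j l = D i l j) (x : Fin m) :
    ∑ s, ∑ p, H s p * (D s x p + D x s p - D p s x) / 2 =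
      (1 / 2) * ∑ s, ∑ p, H s p * D x s p := by
  have e1 : ∀ s p, H s p * (D s x p + D x s p - D p s x) / 2 =
      (1 / 2) * (H s p * D s x p) + (1 / 2) * (H s p * D x s p) - (1 / 2) * (H s p * D p s x) := by
    intro s p
    ring
  have e2 : ∑ s, ∑ p, H s p * D p s x = ∑ s, ∑ p, H s p * D s x p := by
    rw [Finset.sum_comm]
    refine Finset.sum_congr rfl fun p _ => Finset.sum_congr rfl fun s _ => ?_
    rw [hH s p, hD p s x]
  simp only [e1, Finset.sum_add_distrib, Finset.sum_sub_distrib, ← Finset.mul_sum]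
  rw [e2]
  ring

section metric

variable {m : ℕ} {k : Coord m} (hk : Met k)

include hk

theorem k_chr2 (t : Fin m → ℝ) (l : Fin m) :
    ∑ s, pd s (inv k s l) t + ∑ s, ∑ x, christoffel k s s x t * inv k x l t =
      -∑ i, ∑ j, inv k i j t * christoffel k l i j t := by
  have h1 := alg_chr2 (fun i j => inv k i j t) (fun i a b => pd i (fun t => k t a b) t)
    (k_isymm hk t) l
  have h2 : ∑ i, ∑ j, inv k i j t * christoffel k l i j t =
      ∑ i, ∑ j, inv k i j t * ∑ p, inv k l p t * (pd i (fun t => k t j p) t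
        + pd j (fun t => k t i p) t - pd p (fun t => k t i j) t) / 2 := rfl
  have h3 : ∀ x, ∑ s, christoffel k s s x t =
      (1 / 2) * ∑ s, ∑ p, inv k s p t * pd x (fun t => k t s p) t := by
    intro x
    refine (alg_tr (fun i j => inv k i j t) (fun i a b => pd i (fun t => k t a b) t)
      (k_isymm hk t) ?_ x)
    intro i a b
    have e : (fun t => k t a b) = fun t => k t b a := by
      funext t
      exact hk.symm t a b
    simp only [e]
  have h4 : ∑ s, ∑ x, christoffel k s s x t * inv k x l t =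
      (1 / 2) * ∑ p, inv k l p t * ∑ i, ∑ j, inv k i j t * pd p (fun t => k t i j) t := by
    rw [Finset.sum_comm, Finset.mul_sum]
    refine Finset.sum_congr rfl fun x _ => ?_
    rw [← Finset.sum_mul, h3 x, k_isymm hk t x l]
    ring
  have h5 : ∑ s, pd s (inv k s l) t =
      -∑ i, ∑ b, (∑ a, inv k i a t * pd i (fun t => k t a b) t) * inv k b l t := by
    rw [← Finset.sum_neg_distrib]
    exact Finset.sum_congr rfl fun i _ => k_dinv hk i t i l
  rw [h2, h4, h5, h1]
  ring

theorem k_div {u : (Fin m → ℝ) → ℝ} (hu : ContDiff ℝ ∞ u) (t : Fin m → ℝ) :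
    ∑ s, pd s (fun t => ∑ l, inv k s l t * pd l u t) t
      + ∑ s, ∑ x, christoffel k s s x t * ∑ l, inv k x l t * pd l u t = lapM k u t := by
  have h1 : ∀ j t, DifferentiableAt ℝ (pd j u) t := fun j t =>
    (H62.pd_smooth j hu).differentiable (by simp) t
  have h2 : ∀ i, pd i (fun t => ∑ j, inv k i j t * pd j u t) t =
      ∑ j, (inv k i j t * pd i (pd j u) t + pd i (inv k i j) t * pd j u t) := by
    intro i
    rw [pd_fsum (F := fun j t => inv k i j t * pd j u t)
      (fun j => (k_idiff hk i j t).mul (h1 j t)) i]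
    exact Finset.sum_congr rfl fun j _ => pd_mul (k_idiff hk i j t) (h1 j t)
  simp only [h2, Finset.sum_add_distrib]
  unfold lapM
  have h3 : ∀ i j, inv k i j t * (pd i (pd j u) t - ∑ l, christoffel k l i j t * pd l u t) =
      inv k i j t * pd i (pd j u) t - ∑ l, inv k i j t * christoffel k l i j t * pd l u t := by
    intro i j
    rw [mul_sub, Finset.mul_sum]
    congr 1
    exact Finset.sum_congr rfl fun l _ => by ring
  simp only [h3, Finset.sum_sub_distrib]
  have h5 : ∑ i, ∑ j, ∑ l, inv k i j t * christoffel k l i j t * pd l u t =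
      ∑ l, (∑ i, ∑ j, inv k i j t * christoffel k l i j t) * pd l u t := by
    have e : ∀ i, ∑ j, ∑ l, inv k i j t * christoffel k l i j t * pd l u t =
        ∑ l, (∑ j, inv k i j t * christoffel k l i j t) * pd l u t := by
      intro i
      rw [Finset.sum_comm]
      exact Finset.sum_congr rfl fun l _ => by rw [Finset.sum_mul]
    simp only [e]
    rw [Finset.sum_comm]
    exact Finset.sum_congr rfl fun l _ => by rw [Finset.sum_mul]
  have h6 : ∑ i, ∑ j, pd i (inv k i j) t * pd j u t =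
      ∑ j, (∑ i, pd i (inv k i j) t) * pd j u t := by
    rw [Finset.sum_comm]
    exact Finset.sum_congr rfl fun l _ => by rw [Finset.sum_mul]
  have h7 : ∑ s, ∑ x, christoffel k s s x t * ∑ l, inv k x l t * pd l u t =
      ∑ l, (∑ s, ∑ x, christoffel k s s x t * inv k x l t) * pd l u t := by
    have e : ∀ s, ∑ x, christoffel k s s x t * ∑ l, inv k x l t * pd l u t =
        ∑ l, (∑ x, christoffel k s s x t * inv k x l t) * pd l u t := by
      intro s
      have e' : ∀ x, christoffel k s s x t * ∑ l, inv k x l t * pd l u t =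
          ∑ l, christoffel k s s x t * inv k x l t * pd l u t := by
        intro x
        rw [Finset.mul_sum]
        exact Finset.sum_congr rfl fun l _ => by ring
      simp only [e']
      rw [Finset.sum_comm]
      exact Finset.sum_congr rfl fun l _ => by rw [Finset.sum_mul]
    simp only [e]
    rw [Finset.sum_comm]
    exact Finset.sum_congr rfl fun l _ => by rw [Finset.sum_mul]
  rw [h5, h6, h7]
  have h8 : ∑ l, (∑ i, ∑ j, inv k i j t * christoffel k l i j t) * pd l u t =
      -(∑ j, (∑ i, pd i (inv k i j) t) * pd j u t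
        + ∑ l, (∑ s, ∑ x, christoffel k s s x t * inv k x l t) * pd l u t) := by
    rw [← Finset.sum_add_distrib, ← Finset.sum_neg_distrib]
    refine Finset.sum_congr rfl fun l _ => ?_
    have := k_chr2 hk t l
    rw [← add_mul, this]
    ring
  rw [h8]
  ring

theorem k_divW {u : (Fin m → ℝ) → ℝ} (hu : ContDiff ℝ ∞ u) (t : Fin m → ℝ) :
    ∑ s, pd s (fun t => -(Real.exp (2 * u t) * ∑ l, inv k s l t * pd l u t)) t
      + ∑ s, ∑ x, christoffel k s s x t *
        (-(Real.exp (2 * u t) * ∑ l, inv k x l t * pd l u t)) =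
      -(Real.exp (2 * u t) * (lapM k u t + 2 * gip k u u t)) := by
  have hV : ∀ i, ContDiff ℝ ∞ (fun t => ∑ j, inv k i j t * pd j u t) := fun i =>
    ContDiff.sum fun j _ => (k_inv hk i j).mul (H62.pd_smooth j hu)
  have hud : DifferentiableAt ℝ u t := hu.differentiable (by simp) t
  have h1 : ∀ s, pd s (fun t => -(Real.exp (2 * u t) * ∑ l, inv k s l t * pd l u t)) t =
      -(Real.exp (2 * u t) * (pd s (fun t => ∑ l, inv k s l t * pd l u t) t
        + 2 * ∑ l, inv k s l t * pd s u t * pd l u t)) := by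
    intro s
    have h2 : pd s (fun t => -(Real.exp (2 * u t) * ∑ l, inv k s l t * pd l u t)) t =
        -pd s (fun t => Real.exp (2 * u t) * ∑ l, inv k s l t * pd l u t) t := by
      unfold pd
      rw [fderiv_fun_neg]
      rfl
    rw [h2, pd_mul (hud.const_mul 2).exp ((hV s).differentiable (by simp) t),
      pd_exp (hud.const_mul 2), pd_const_mul 2 hud]
    have e3 : ∑ j, inv k s j t * pd s u t * pd j u t = pd s u t * ∑ j, inv k s j t * pd j u t := by
      rw [Finset.mul_sum]
      exact Finset.sum_congr rfl fun j _ => by ring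
    rw [e3]
    ring
  have h3 : ∀ s x, christoffel k s s x t *
      (-(Real.exp (2 * u t) * ∑ l, inv k x l t * pd l u t)) =
      -(Real.exp (2 * u t) * (christoffel k s s x t * ∑ l, inv k x l t * pd l u t)) := by
    intro s x
    ring
  simp only [h1, h3, Finset.sum_neg_distrib, ← Finset.mul_sum, Finset.sum_add_distrib]
  rw [← k_div hk hu t]
  unfold gip
  ring

end metric

/-! ### assembly -/

section assembly

variable {m : ℕ} {U : ℂ → (Fin m → ℝ) → ℝ} {h : ℂ → Coord m} (hU : Sm U) (hh : FibM h)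
  (y : Fin (m + 2) → ℝ)

/-- the contribution of one direction of the base -/
def Xv (U : ℂ → (Fin m → ℝ) → ℝ) (h : ℂ → Coord m) (v z : ℂ) (t : Fin m → ℝ) (j k : Fin m) : ℝ :=
  Dd v (Bm U h v j k) z t + 2 * Dd v U z t * Bm U h v j k z t
    - (1 / 2) * ∑ x, Bm U h v j x z t * Am h v x k z t
    + ∑ s, (1 / 2) * (Am h v s s z t * Bm U h v j k z t - Am h v s j z t * Bm U h v s k z t)

theorem met {h : ℂ → Coord m} (hh : FibM h) (z : ℂ) : Met (h z) where
  smooth i j := (hh.smooth i j).comp (contDiff_const.prodMk contDiff_id)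
  symm := hh.symm z
  pos := hh.pos z

theorem sU {U : ℂ → (Fin m → ℝ) → ℝ} (hU : Sm U) (z : ℂ) : ContDiff ℝ ∞ (U z) :=
  ContDiff.comp (g := fun p : ℂ × (Fin m → ℝ) => U p.1 p.2) hU
    (contDiff_const.prodMk contDiff_id)

include hU hh

theorem Xsum (v z : ℂ) (t : Fin m → ℝ) : ∑ j, ∑ k, hi h j k z t * Xv U h v z t j k =
    Real.exp (-2 * U z t) * (-Dd v (Dd v (lvol h)) z t - Dd v (lvol h) z t ^ 2) := by
  have h1 := algX (fun j k => hi h j k z t) (fun j k => Dd v (he h j k) z t)
    (fun j k => Dd v (Dd v (he h j k)) z t) (fun s x => Am h v s x z t)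
    (hi_symm hh z t) (dhe_symm hh v z t) (fun s x => rfl) (Real.exp (-2 * U z t)) (Dd v U z t)
  rw [hess hh, tr_am hh] at h1
  have h2 : ∑ j, ∑ k, hi h j k z t * Xv U h v z t j k = ∑ j, ∑ k, hi h j k z t *
      (Real.exp (-2 * U z t) * (Dd v U z t * Dd v (he h j k) z t
        - (1 / 2) * Dd v (Dd v (he h j k)) z t)
      + 2 * Dd v U z t * (-(1 / 2) * (Real.exp (-2 * U z t) * Dd v (he h j k) z t))
      - (1 / 2) * ∑ x, (-(1 / 2) * (Real.exp (-2 * U z t) * Dd v (he h j x) z t)) * Am h v x k z t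
      + ∑ s, (1 / 2) * (Am h v s s z t * (-(1 / 2) * (Real.exp (-2 * U z t) * Dd v (he h j k) z t))
        - Am h v s j z t * (-(1 / 2) * (Real.exp (-2 * U z t) * Dd v (he h s k) z t)))) := by
    refine Finset.sum_congr rfl fun j _ => Finset.sum_congr rfl fun k _ => ?_
    unfold Xv
    rw [Db hU hh]
    rfl
  rw [h2]
  refine h1.trans ?_
  ring

theorem ric00 : ricci (blkU U h) 0 0 y + ricci (blkU U h) 1 1 y =
    -2 * lap (fun z => U z (tl y)) (pr y)
    - lap (fun z => lvol h z (tl y)) (pr y)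
    - (1 / 4) * (trq (h (pr y) (tl y)) (fun i j => dx (fun z => h z (tl y) i j) (pr y))
        + trq (h (pr y) (tl y)) (fun i j => dy (fun z => h z (tl y) i j) (pr y)))
    - 2 * (Real.exp (2 * U (pr y) (tl y)) * (lapM (h (pr y)) (U (pr y)) (tl y)
      + 2 * gip (h (pr y)) (U (pr y)) (U (pr y)) (tl y))) := by
  have e1 : ricci (blkU U h) 0 0 y = -lap (fun z => U z (tl y)) (pr y)
      + ∑ s : Fin m, Dt s U (pr y) (tl y) * Wm U h s (pr y) (tl y) + ∑ s : Fin m,
      (Dt s (Wm U h s) (pr y) (tl y)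
      + ∑ t, christoffel (h (pr y)) s s t (tl y) * Wm U h t (pr y) (tl y)
      - Dt s U (pr y) (tl y) * Wm U h s (pr y) (tl y)
      - (1 / 2) * Dd 1 (Am h 1 s s) (pr y) (tl y)
      + (1 / 2) * Am h 1 s s (pr y) (tl y) * Dd 1 U (pr y) (tl y)
      - (1 / 2) * Am h Complex.I s s (pr y) (tl y) * Dd Complex.I U (pr y) (tl y)
      - (1 / 4) * ∑ t, Am h 1 s t (pr y) (tl y) * Am h 1 t s (pr y) (tl y)) := by
    unfold ricci
    rw [sum2, curv_self, R1001 hU hh]
    simp only [Rs00s hU hh]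
    ring
  have e2 : ricci (blkU U h) 1 1 y = -lap (fun z => U z (tl y)) (pr y)
      + ∑ s : Fin m, Dt s U (pr y) (tl y) * Wm U h s (pr y) (tl y) + ∑ s : Fin m,
      (Dt s (Wm U h s) (pr y) (tl y)
      + ∑ t, christoffel (h (pr y)) s s t (tl y) * Wm U h t (pr y) (tl y)
      - Dt s U (pr y) (tl y) * Wm U h s (pr y) (tl y)
      - (1 / 2) * Dd Complex.I (Am h Complex.I s s) (pr y) (tl y)
      - (1 / 2) * Am h 1 s s (pr y) (tl y) * Dd 1 U (pr y) (tl y)
      + (1 / 2) * Am h Complex.I s s (pr y) (tl y) * Dd Complex.I U (pr y) (tl y)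
      - (1 / 4) * ∑ t, Am h Complex.I s t (pr y) (tl y) * Am h Complex.I t s (pr y) (tl y)) := by
    unfold ricci
    rw [sum2, curv_self, R0110 hU hh]
    simp only [Rs11s hU hh]
    ring
  have q1 : trq (h (pr y) (tl y)) (fun i j => dx (fun z => h z (tl y) i j) (pr y)) =
      ∑ s, ∑ x, Am h 1 s x (pr y) (tl y) * Am h 1 x s (pr y) (tl y) :=
    q_trq hh 1 (pr y) (tl y)
  have q2 : trq (h (pr y) (tl y)) (fun i j => dy (fun z => h z (tl y) i j) (pr y)) =
      ∑ s, ∑ x, Am h Complex.I s x (pr y) (tl y) * Am h Complex.I x s (pr y) (tl y) :=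
    q_trq hh Complex.I (pr y) (tl y)
  have l1 : lap (fun z => lvol h z (tl y)) (pr y) = Dd 1 (Dd 1 (lvol h)) (pr y) (tl y)
      + Dd Complex.I (Dd Complex.I (lvol h)) (pr y) (tl y) := rfl
  have d1 := dd_am hh 1 (pr y) (tl y)
  have d2 := dd_am hh Complex.I (pr y) (tl y)
  have d3 : ∑ s, Dt s (Wm U h s) (pr y) (tl y)
      + ∑ s, ∑ t, christoffel (h (pr y)) s s t (tl y) * Wm U h t (pr y) (tl y) =
      -(Real.exp (2 * U (pr y) (tl y)) * (lapM (h (pr y)) (U (pr y)) (tl y)
      + 2 * gip (h (pr y)) (U (pr y)) (U (pr y)) (tl y))) :=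
    k_divW (met hh (pr y)) (sU hU (pr y)) (tl y)
  rw [e1, e2, q1, q2, l1]
  simp only [Finset.sum_add_distrib, Finset.sum_sub_distrib, ← Finset.mul_sum, ← Finset.sum_mul]
  rw [d1, d2]
  linear_combination 2 * d3

theorem ricss (j k : Fin m) : ricci (blkU U h) j.succ.succ k.succ.succ y =
    Xv U h 1 (pr y) (tl y) j k + Xv U h Complex.I (pr y) (tl y) j k
      + ricci (h (pr y)) j k (tl y) - 2 * Hs U h j k (pr y) (tl y)
      - 2 * (Dt j U (pr y) (tl y) * Dt k U (pr y) (tl y)) := by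
  unfold ricci
  rw [sum2, R0jk0 hU hh, R1jk1 hU hh]
  simp only [Rsjks hU hh, Finset.sum_add_distrib]
  unfold Xv
  ring

theorem scal_split : scal (blkU U h) y = Real.exp (-2 * U (pr y) (tl y)) *
    (ricci (blkU U h) 0 0 y + ricci (blkU U h) 1 1 y) + ∑ j : Fin m, ∑ k : Fin m,
      hi h j k (pr y) (tl y) * ricci (blkU U h) j.succ.succ k.succ.succ y := by
  have e1 : ∀ i : Fin m, ∑ k, inv (blkU U h) i.succ.succ k y * ricci (blkU U h) i.succ.succ k y =
      ∑ k : Fin m, hi h i k (pr y) (tl y) * ricci (blkU U h) i.succ.succ k.succ.succ y := by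
    intro i
    rw [sum2, invs0 hh, invs1 hh]
    simp only [invss hh]
    ring
  have e2 : ∑ k, inv (blkU U h) 0 k y * ricci (blkU U h) 0 k y =
      Real.exp (-2 * U (pr y) (tl y)) * ricci (blkU U h) 0 0 y := by
    rw [sum2, inv00 hh, inv01 hh]
    simp [inv0s hh]
  have e3 : ∑ k, inv (blkU U h) 1 k y * ricci (blkU U h) 1 k y =
      Real.exp (-2 * U (pr y) (tl y)) * ricci (blkU U h) 1 1 y := by
    rw [sum2, inv10 hh, inv11 hh]
    simp [inv1s hh]
  unfold scal
  rw [sum2, e2, e3]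
  simp only [e1]
  ring

end assembly

/-- BLG -/
theorem blg : BlgStmt := by
  intro m U h hU hh y
  have hU' : Sm U := hU
  rw [scal_split hU' hh, ric00 hU' hh]
  simp only [ricss hU' hh, mul_add, mul_sub, Finset.sum_add_distrib, Finset.sum_sub_distrib]
  rw [Xsum hU' hh, Xsum hU' hh]
  have e1 : ∑ j, ∑ k, hi h j k (pr y) (tl y) * ricci (h (pr y)) j k (tl y) =
    scal (h (pr y)) (tl y) := rfl
  have e2 : grad2 (fun z => lvol h z (tl y)) (pr y) = Dd 1 (lvol h) (pr y) (tl y) ^ 2
      + Dd Complex.I (lvol h) (pr y) (tl y) ^ 2 := rfl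
  have l1 : lap (fun z => lvol h z (tl y)) (pr y) = Dd 1 (Dd 1 (lvol h)) (pr y) (tl y)
      + Dd Complex.I (Dd Complex.I (lvol h)) (pr y) (tl y) := rfl
  have e3 : -(2 * U (pr y) (tl y)) = -2 * U (pr y) (tl y) := by ring
  have e4 : ∑ j, ∑ k, hi h j k (pr y) (tl y) * (2 * Hs U h j k (pr y) (tl y)) =
      2 * lapM (h (pr y)) (U (pr y)) (tl y) := by
    have e5 : lapM (h (pr y)) (U (pr y)) (tl y) =
      ∑ j, ∑ k, hi h j k (pr y) (tl y) * Hs U h j k (pr y) (tl y) := rfl
    rw [e5, Finset.mul_sum]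
    refine Finset.sum_congr rfl fun j _ => ?_
    rw [Finset.mul_sum]
    exact Finset.sum_congr rfl fun k _ => by ring
  have e6 : ∑ j, ∑ k, hi h j k (pr y) (tl y) *
      (2 * (Dt j U (pr y) (tl y) * Dt k U (pr y) (tl y))) =
      2 * gip (h (pr y)) (U (pr y)) (U (pr y)) (tl y) := by
    have e5 : gip (h (pr y)) (U (pr y)) (U (pr y)) (tl y) =
      ∑ j, ∑ k, hi h j k (pr y) (tl y) * Dt j U (pr y) (tl y) * Dt k U (pr y) (tl y) := rfl
    rw [e5, Finset.mul_sum]
    refine Finset.sum_congr rfl fun j _ => ?_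
    rw [Finset.mul_sum]
    exact Finset.sum_congr rfl fun k _ => by ring
  have e7 := ee (U := U) y
  rw [e1, e2, l1, e3, e4, e6]
  linear_combination (-2 * (lapM (h (pr y)) (U (pr y)) (tl y)
    + 2 * gip (h (pr y)) (U (pr y)) (U (pr y)) (tl y))) * e7

end Pool.Agent.BCS.H49U
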