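import Pool.Agent.Helper49_BCS.BlkD
import Pool.Agent.BCS.Stmts3

/-!
# Row BLG of squad BCS, part C: the Christoffel symbols (helper49)
-/

set_option linter.unusedSectionVars false

noncomputable section

open scoped ContDiff Topology
open Set

namespace Pool.Agent.BCS.H49U

open Pool.Agent.BCS.H49
open Pool.Agent.SecondKind (Coord pd inv christoffel ricci curv)

variable {m : ℕ}

theorem Dd_expU {U : ℂ → (Fin m → ℝ) → ℝ} (hU : Sm U) (c : ℝ) (v : ℂ) (z : ℂ) (t : Fin m → ℝ) :
    Dd v (fun z t => Real.exp (c * U z t)) z t = Real.exp (c * U z t) * (c * Dd v U z t) := by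
  unfold Dd
  have h1 : DifferentiableAt ℝ (fun z => U z t) z := hU.diff z t
  rw [fderiv_exp (h1.const_mul c), fderiv_const_mul h1]
  rfl

theorem Sm.difft {F : ℂ → (Fin m → ℝ) → ℝ} (h : Sm F) (z : ℂ) (t : Fin m → ℝ) :
    DifferentiableAt ℝ (F z) t := by
  have h1 : DifferentiableAt ℝ (fun p : ℂ × (Fin m → ℝ) => F p.1 p.2) (z, t) :=
    (h.differentiable (by simp)) _
  exact (h1.hasFDerivAt.comp t (hasFDerivAt_prodMk_right (𝕜 := ℝ) z t)).differentiableAt

theorem Dt_expU {U : ℂ → (Fin m → ℝ) → ℝ} (hU : Sm U) (c : ℝ) (i : Fin m) (z : ℂ)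
    (t : Fin m → ℝ) :
    Dt i (fun z t => Real.exp (c * U z t)) z t = Real.exp (c * U z t) * (c * Dt i U z t) := by
  unfold Dt pd
  have h1 : DifferentiableAt ℝ (U z) t := Sm.difft hU z t
  have h2 : (fun t => Real.exp (c * U z t)) = fun t => Real.exp (c * (U z) t) := rfl
  rw [fderiv_exp (h1.const_mul c), fderiv_const_mul h1]
  rfl

theorem sm_exU {U : ℂ → (Fin m → ℝ) → ℝ} (hU : Sm U) (c : ℝ) :
    Sm (fun z t => Real.exp (c * U z t)) := (contDiff_const.mul hU).exp

section pdEntries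

variable {U : ℂ → (Fin m → ℝ) → ℝ} {h : ℂ → Coord m} (hU : Sm U) (hh : FibM h)
  (y : Fin (m + 2) → ℝ)

include hU

theorem p0_00 : pd 0 (fun z => blkU U h z 0 0) y =
    Real.exp (2 * U (pr y) (tl y)) * (2 * Dd 1 U (pr y) (tl y)) := by
  have h1 := congrFun (pdY0 (sm_exU hU 2)) y
  have h2 : Y (fun z t => Real.exp (2 * U z t)) = fun z => blkU U h z 0 0 := rfl
  rw [h2] at h1
  rw [h1]
  exact Dd_expU hU 2 1 (pr y) (tl y)

theorem p1_00 : pd 1 (fun z => blkU U h z 0 0) y =
    Real.exp (2 * U (pr y) (tl y)) * (2 * Dd Complex.I U (pr y) (tl y)) := by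
  have h1 := congrFun (pdY1 (sm_exU hU 2)) y
  have h2 : Y (fun z t => Real.exp (2 * U z t)) = fun z => blkU U h z 0 0 := rfl
  rw [h2] at h1
  rw [h1]
  exact Dd_expU hU 2 Complex.I (pr y) (tl y)

theorem ps_00 (i : Fin m) : pd i.succ.succ (fun z => blkU U h z 0 0) y =
    Real.exp (2 * U (pr y) (tl y)) * (2 * Dt i U (pr y) (tl y)) := by
  have h1 := congrFun (pdYs (sm_exU hU 2) i) y
  have h2 : Y (fun z t => Real.exp (2 * U z t)) = fun z => blkU U h z 0 0 := rfl
  rw [h2] at h1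
  rw [h1]
  exact Dt_expU hU 2 i (pr y) (tl y)

theorem p0_11 : pd 0 (fun z => blkU U h z 1 1) y =
    Real.exp (2 * U (pr y) (tl y)) * (2 * Dd 1 U (pr y) (tl y)) := p0_00 (h := h) hU y

theorem p1_11 : pd 1 (fun z => blkU U h z 1 1) y =
    Real.exp (2 * U (pr y) (tl y)) * (2 * Dd Complex.I U (pr y) (tl y)) := p1_00 (h := h) hU y

theorem ps_11 (i : Fin m) : pd i.succ.succ (fun z => blkU U h z 1 1) y =
    Real.exp (2 * U (pr y) (tl y)) * (2 * Dt i U (pr y) (tl y)) := ps_00 (h := h) hU y i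

omit hU

theorem pk_01 (k : Fin (m + 2)) : pd k (fun z => blkU U h z 0 1) y = 0 := pd_zero' y k
theorem pk_10 (k : Fin (m + 2)) : pd k (fun z => blkU U h z 1 0) y = 0 := pd_zero' y k
theorem pk_0s (k : Fin (m + 2)) (j : Fin m) : pd k (fun z => blkU U h z 0 j.succ.succ) y = 0 :=
  pd_zero' y k
theorem pk_1s (k : Fin (m + 2)) (j : Fin m) : pd k (fun z => blkU U h z 1 j.succ.succ) y = 0 :=
  pd_zero' y k
theorem pk_s0 (k : Fin (m + 2)) (j : Fin m) : pd k (fun z => blkU U h z j.succ.succ 0) y = 0 :=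
  pd_zero' y k
theorem pk_s1 (k : Fin (m + 2)) (j : Fin m) : pd k (fun z => blkU U h z j.succ.succ 1) y = 0 :=
  pd_zero' y k

include hh

theorem p0_ss (i j : Fin m) : pd 0 (fun z => blkU U h z i.succ.succ j.succ.succ) y =
    Dd 1 (he h i j) (pr y) (tl y) := congrFun (pdY0 (sm_he hh i j)) y

theorem p1_ss (i j : Fin m) : pd 1 (fun z => blkU U h z i.succ.succ j.succ.succ) y =
    Dd Complex.I (he h i j) (pr y) (tl y) := congrFun (pdY1 (sm_he hh i j)) y

theorem ps_ss (k i j : Fin m) :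
    pd k.succ.succ (fun z => blkU U h z i.succ.succ j.succ.succ) y =
    pd k (fun t => h (pr y) t i j) (tl y) := congrFun (pdYs (sm_he hh i j) k) y

theorem inv00 : inv (blkU U h) 0 0 y = Real.exp (-2 * U (pr y) (tl y)) :=
  H49.inv00 (φ := fun _ => U (pr y) (tl y)) hh y

theorem inv01 : inv (blkU U h) 0 1 y = 0 := H49.inv01 (φ := fun _ => U (pr y) (tl y)) hh y

theorem inv10 : inv (blkU U h) 1 0 y = 0 := H49.inv10 (φ := fun _ => U (pr y) (tl y)) hh y

theorem inv11 : inv (blkU U h) 1 1 y = Real.exp (-2 * U (pr y) (tl y)) :=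
  H49.inv11 (φ := fun _ => U (pr y) (tl y)) hh y

theorem inv0s (j : Fin m) : inv (blkU U h) 0 j.succ.succ y = 0 :=
  H49.inv0s (φ := fun _ => U (pr y) (tl y)) hh y j

theorem inv1s (j : Fin m) : inv (blkU U h) 1 j.succ.succ y = 0 :=
  H49.inv1s (φ := fun _ => U (pr y) (tl y)) hh y j

theorem invs0 (j : Fin m) : inv (blkU U h) j.succ.succ 0 y = 0 :=
  H49.invs0 (φ := fun _ => U (pr y) (tl y)) hh y j

theorem invs1 (j : Fin m) : inv (blkU U h) j.succ.succ 1 y = 0 :=
  H49.invs1 (φ := fun _ => U (pr y) (tl y)) hh y j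

theorem invss (i j : Fin m) : inv (blkU U h) i.succ.succ j.succ.succ y =
    hi h i j (pr y) (tl y) :=
  H49.invss (φ := fun _ => U (pr y) (tl y)) hh y i j

end pdEntries

/-- `-(1/2) e^{-2U} ∂_v h` -/
def Bm (U : ℂ → (Fin m → ℝ) → ℝ) (h : ℂ → Coord m) (v : ℂ) (s t : Fin m) :
    ℂ → (Fin m → ℝ) → ℝ :=
  fun z x => (-(1 / 2)) * (Real.exp (-2 * U z x) * Dd v (he h s t) z x)

/-- `- e^{2U} h^{sl} U_l` -/
def Wm (U : ℂ → (Fin m → ℝ) → ℝ) (h : ℂ → Coord m) (s : Fin m) :
    ℂ → (Fin m → ℝ) → ℝ :=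
  fun z x => -(Real.exp (2 * U z x) * ∑ l, hi h s l z x * Dt l U z x)

section chris

variable {U : ℂ → (Fin m → ℝ) → ℝ} {h : ℂ → Coord m} (hU : Sm U) (hh : FibM h)
  (y : Fin (m + 2) → ℝ)

theorem ee (y : Fin (m + 2) → ℝ) :
    Real.exp (-2 * U (pr y) (tl y)) * Real.exp (2 * U (pr y) (tl y)) = 1 := by
  rw [← Real.exp_add]
  simp

include hU hh

theorem C000 : christoffel (blkU U h) 0 0 0 y = Dd 1 U (pr y) (tl y) := by
  unfold christoffel
  rw [sum2]
  simp only [inv00 hh, inv01 hh, inv0s hh, p0_00 hU, zero_mul, zero_div, Finset.sum_const_zero]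
  linear_combination Dd 1 U (pr y) (tl y) * ee (U := U) y

theorem C001 : christoffel (blkU U h) 0 0 1 y = Dd Complex.I U (pr y) (tl y) := by
  unfold christoffel
  rw [sum2]
  simp only [inv00 hh, inv01 hh, inv0s hh, p1_00 hU, pk_01, pk_10, zero_mul, zero_div,
    Finset.sum_const_zero]
  linear_combination Dd Complex.I U (pr y) (tl y) * ee (U := U) y

theorem C010 : christoffel (blkU U h) 0 1 0 y = Dd Complex.I U (pr y) (tl y) := by
  unfold christoffel
  rw [sum2]
  simp only [inv00 hh, inv01 hh, inv0s hh, p1_00 hU, pk_01, pk_10, zero_mul, zero_div,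
    Finset.sum_const_zero]
  linear_combination Dd Complex.I U (pr y) (tl y) * ee (U := U) y

theorem C011 : christoffel (blkU U h) 0 1 1 y = -Dd 1 U (pr y) (tl y) := by
  unfold christoffel
  rw [sum2]
  simp only [inv00 hh, inv01 hh, inv0s hh, p0_11 hU, pk_01, pk_10, zero_mul, zero_div,
    Finset.sum_const_zero]
  linear_combination -Dd 1 U (pr y) (tl y) * ee (U := U) y

theorem C100 : christoffel (blkU U h) 1 0 0 y = -Dd Complex.I U (pr y) (tl y) := by
  unfold christoffel
  rw [sum2]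
  simp only [inv10 hh, inv11 hh, inv1s hh, p1_00 hU, pk_01, pk_10, zero_mul, zero_div,
    Finset.sum_const_zero]
  linear_combination -Dd Complex.I U (pr y) (tl y) * ee (U := U) y

theorem C101 : christoffel (blkU U h) 1 0 1 y = Dd 1 U (pr y) (tl y) := by
  unfold christoffel
  rw [sum2]
  simp only [inv10 hh, inv11 hh, inv1s hh, p0_11 hU, pk_01, pk_10, zero_mul, zero_div,
    Finset.sum_const_zero]
  linear_combination Dd 1 U (pr y) (tl y) * ee (U := U) y

theorem C110 : christoffel (blkU U h) 1 1 0 y = Dd 1 U (pr y) (tl y) := by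
  unfold christoffel
  rw [sum2]
  simp only [inv10 hh, inv11 hh, inv1s hh, p0_11 hU, pk_01, pk_10, zero_mul, zero_div,
    Finset.sum_const_zero]
  linear_combination Dd 1 U (pr y) (tl y) * ee (U := U) y

theorem C111 : christoffel (blkU U h) 1 1 1 y = Dd Complex.I U (pr y) (tl y) := by
  unfold christoffel
  rw [sum2]
  simp only [inv10 hh, inv11 hh, inv1s hh, p1_11 hU, zero_mul, zero_div,
    Finset.sum_const_zero]
  linear_combination Dd Complex.I U (pr y) (tl y) * ee (U := U) y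

theorem C00s (s : Fin m) : christoffel (blkU U h) 0 0 s.succ.succ y = Dt s U (pr y) (tl y) := by
  unfold christoffel
  rw [sum2]
  simp only [inv00 hh, inv01 hh, inv0s hh, ps_00 hU, pk_s0, pk_0s, zero_mul, zero_div,
    Finset.sum_const_zero]
  linear_combination Dt s U (pr y) (tl y) * ee (U := U) y

theorem C0s0 (s : Fin m) : christoffel (blkU U h) 0 s.succ.succ 0 y = Dt s U (pr y) (tl y) := by
  unfold christoffel
  rw [sum2]
  simp only [inv00 hh, inv01 hh, inv0s hh, ps_00 hU, pk_s0, pk_0s, zero_mul, zero_div,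
    Finset.sum_const_zero]
  linear_combination Dt s U (pr y) (tl y) * ee (U := U) y

theorem C01s (s : Fin m) : christoffel (blkU U h) 0 1 s.succ.succ y = 0 := by
  unfold christoffel
  rw [sum2]
  simp [inv00 hh, inv01 hh, inv0s hh, pk_10, pk_s0, pk_1s]

theorem C0s1 (s : Fin m) : christoffel (blkU U h) 0 s.succ.succ 1 y = 0 := by
  unfold christoffel
  rw [sum2]
  simp [inv00 hh, inv01 hh, inv0s hh, pk_10, pk_s0, pk_s1]

theorem C10s (s : Fin m) : christoffel (blkU U h) 1 0 s.succ.succ y = 0 := by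
  unfold christoffel
  rw [sum2]
  simp [inv10 hh, inv11 hh, inv1s hh, pk_01, pk_s1, pk_0s]

theorem C1s0 (s : Fin m) : christoffel (blkU U h) 1 s.succ.succ 0 y = 0 := by
  unfold christoffel
  rw [sum2]
  simp [inv10 hh, inv11 hh, inv1s hh, pk_01, pk_s1, pk_s0]

theorem C11s (s : Fin m) : christoffel (blkU U h) 1 1 s.succ.succ y = Dt s U (pr y) (tl y) := by
  unfold christoffel
  rw [sum2]
  simp only [inv10 hh, inv11 hh, inv1s hh, ps_11 hU, pk_s1, pk_1s, zero_mul, zero_div,
    Finset.sum_const_zero]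
  linear_combination Dt s U (pr y) (tl y) * ee (U := U) y

theorem C1s1 (s : Fin m) : christoffel (blkU U h) 1 s.succ.succ 1 y = Dt s U (pr y) (tl y) := by
  unfold christoffel
  rw [sum2]
  simp only [inv10 hh, inv11 hh, inv1s hh, ps_11 hU, pk_s1, pk_1s, zero_mul, zero_div,
    Finset.sum_const_zero]
  linear_combination Dt s U (pr y) (tl y) * ee (U := U) y

theorem Cs00 (s : Fin m) : christoffel (blkU U h) s.succ.succ 0 0 y = Wm U h s (pr y) (tl y) := by
  unfold christoffel Wm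
  rw [sum2]
  simp only [invs0 hh, invs1 hh, invss hh, ps_00 hU, pk_0s, zero_mul, zero_div, zero_add]
  rw [Finset.mul_sum, ← Finset.sum_neg_distrib]
  refine Finset.sum_congr rfl fun l _ => ?_
  ring

theorem Cs01 (s : Fin m) : christoffel (blkU U h) s.succ.succ 0 1 y = 0 := by
  unfold christoffel
  rw [sum2]
  simp [invs0 hh, invs1 hh, pk_01, pk_0s, pk_1s]

theorem Cs10 (s : Fin m) : christoffel (blkU U h) s.succ.succ 1 0 y = 0 := by
  unfold christoffel
  rw [sum2]
  simp [invs0 hh, invs1 hh, pk_10, pk_0s, pk_1s]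

theorem Cs11 (s : Fin m) : christoffel (blkU U h) s.succ.succ 1 1 y = Wm U h s (pr y) (tl y) := by
  unfold christoffel Wm
  rw [sum2]
  simp only [invs0 hh, invs1 hh, invss hh, ps_11 hU, pk_1s, zero_mul, zero_div, zero_add]
  rw [Finset.mul_sum, ← Finset.sum_neg_distrib]
  refine Finset.sum_congr rfl fun l _ => ?_
  ring

theorem C0st (s t : Fin m) : christoffel (blkU U h) 0 s.succ.succ t.succ.succ y =
    Bm U h 1 s t (pr y) (tl y) := by
  unfold christoffel Bm
  rw [sum2]
  simp only [inv00 hh, inv01 hh, inv0s hh, pk_s0, p0_ss hh, zero_mul, zero_div,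
    Finset.sum_const_zero]
  ring

theorem C1st (s t : Fin m) : christoffel (blkU U h) 1 s.succ.succ t.succ.succ y =
    Bm U h Complex.I s t (pr y) (tl y) := by
  unfold christoffel Bm
  rw [sum2]
  simp only [inv10 hh, inv11 hh, inv1s hh, pk_s1, p1_ss hh, zero_mul, zero_div,
    Finset.sum_const_zero]
  ring

theorem Cs0t (s t : Fin m) : christoffel (blkU U h) s.succ.succ 0 t.succ.succ y =
    (1 / 2) * Am h 1 s t (pr y) (tl y) := by
  unfold christoffel Am
  rw [sum2]
  simp only [invs0 hh, invs1 hh, invss hh, pk_0s, p0_ss hh, zero_mul, zero_div, zero_add]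
  rw [Finset.mul_sum]
  refine Finset.sum_congr rfl fun l _ => ?_
  ring

theorem Cst0 (s t : Fin m) : christoffel (blkU U h) s.succ.succ t.succ.succ 0 y =
    (1 / 2) * Am h 1 s t (pr y) (tl y) := by
  unfold christoffel Am
  rw [sum2]
  simp only [invs0 hh, invs1 hh, invss hh, pk_0s, pk_s0, p0_ss hh, zero_mul, zero_div, zero_add]
  rw [Finset.mul_sum]
  refine Finset.sum_congr rfl fun l _ => ?_
  ring

theorem Cs1t (s t : Fin m) : christoffel (blkU U h) s.succ.succ 1 t.succ.succ y =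
    (1 / 2) * Am h Complex.I s t (pr y) (tl y) := by
  unfold christoffel Am
  rw [sum2]
  simp only [invs0 hh, invs1 hh, invss hh, pk_1s, p1_ss hh, zero_mul, zero_div, zero_add]
  rw [Finset.mul_sum]
  refine Finset.sum_congr rfl fun l _ => ?_
  ring

theorem Cst1 (s t : Fin m) : christoffel (blkU U h) s.succ.succ t.succ.succ 1 y =
    (1 / 2) * Am h Complex.I s t (pr y) (tl y) := by
  unfold christoffel Am
  rw [sum2]
  simp only [invs0 hh, invs1 hh, invss hh, pk_1s, pk_s1, p1_ss hh, zero_mul, zero_div, zero_add]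
  rw [Finset.mul_sum]
  refine Finset.sum_congr rfl fun l _ => ?_
  ring

theorem Cstu (s t u : Fin m) :
    christoffel (blkU U h) s.succ.succ t.succ.succ u.succ.succ y =
      christoffel (h (pr y)) s t u (tl y) := by
  unfold christoffel
  rw [sum2]
  simp only [invs0 hh, invs1 hh, invss hh, ps_ss hh, zero_mul, zero_div, zero_add]
  rfl

end chris

end Pool.Agent.BCS.H49U
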