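import Pool.Agent.Helper49_BCS.BlgC

/-!
# Row BLG of squad BCS, part D: the curvature components (helper49)
-/

set_option linter.unusedSectionVars false

noncomputable section

open scoped ContDiff Topology
open Set

namespace Pool.Agent.BCS.H49U

open Pool.Agent.BCS.H49
open Pool.Agent.SecondKind (Coord pd inv christoffel ricci curv)

variable {m : ℕ}

theorem sm_bm {U : ℂ → (Fin m → ℝ) → ℝ} {h : ℂ → Coord m} (hU : Sm U) (hh : FibM h) (v : ℂ)
    (s t : Fin m) : Sm (Bm U h v s t) :=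
  (Sm.cst _).mul ((sm_exU hU (-2)).mul ((sm_he hh s t).dd v))

theorem sm_neg {F : ℂ → (Fin m → ℝ) → ℝ} (hF : Sm F) : Sm (fun z t => -F z t) :=
  ContDiff.neg hF

theorem sm_wm {U : ℂ → (Fin m → ℝ) → ℝ} {h : ℂ → Coord m} (hU : Sm U) (hh : FibM h)
    (s : Fin m) : Sm (Wm U h s) :=
  sm_neg ((sm_exU hU 2).mul (Sm.sum (F := fun l z x => hi h s l z x * Dt l U z x)
    fun l => (sm_hi hh s l).mul (hU.dt l)))

theorem Dd_negF {F : ℂ → (Fin m → ℝ) → ℝ} (v : ℂ) (z : ℂ) (t : Fin m → ℝ) :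
    Dd v (fun z t => -F z t) z t = -Dd v F z t := by
  unfold Dd
  rw [fderiv_fun_neg]
  rfl

section curvs

variable {U : ℂ → (Fin m → ℝ) → ℝ} {h : ℂ → Coord m} (hU : Sm U) (hh : FibM h)
  (y : Fin (m + 2) → ℝ)

include hU hh

theorem R0110 : curv (blkU U h) 0 1 1 0 y = -lap (fun z => U z (tl y)) (pr y)
    + ∑ s : Fin m, Dt s U (pr y) (tl y) * Wm U h s (pr y) (tl y) := by
  have e1 : pd 0 (christoffel (blkU U h) 0 1 1) y = -Dd 1 (Dd 1 U) (pr y) (tl y) := by
    have e : christoffel (blkU U h) 0 1 1 = Y (fun z t => -Dd 1 U z t) := funext (C011 hU hh)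
    rw [e, pdY0 (sm_neg (hU.dd 1))]
    exact Dd_negF 1 (pr y) (tl y)
  have e2 : pd 1 (christoffel (blkU U h) 0 0 1) y = Dd Complex.I (Dd Complex.I U) (pr y) (tl y) := by
    have e : christoffel (blkU U h) 0 0 1 = Y (Dd Complex.I U) := funext (C001 hU hh)
    rw [e, pdY1 (hU.dd Complex.I)]
    rfl
  have e4 : lap (fun z => U z (tl y)) (pr y) = Dd 1 (Dd 1 U) (pr y) (tl y)
    + Dd Complex.I (Dd Complex.I U) (pr y) (tl y) := rfl
  unfold curv
  rw [sum2, e1, e2, e4]
  have e3 : ∀ s : Fin m, (christoffel (blkU U h) 0 0 s.succ.succ y *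
      christoffel (blkU U h) s.succ.succ 1 1 y - christoffel (blkU U h) 0 1 s.succ.succ y *
      christoffel (blkU U h) s.succ.succ 0 1 y) =
      Dt s U (pr y) (tl y) * Wm U h s (pr y) (tl y) := by
    intro s
    rw [C00s hU hh, Cs11 hU hh, C01s hU hh]
    ring
  simp only [e3]
  simp only [C000 hU hh, C001 hU hh, C010 hU hh, C011 hU hh, C101 hU hh, C111 hU hh]
  ring

theorem R1001 : curv (blkU U h) 1 0 0 1 y = -lap (fun z => U z (tl y)) (pr y)
    + ∑ s : Fin m, Dt s U (pr y) (tl y) * Wm U h s (pr y) (tl y) := by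
  have e1 : pd 1 (christoffel (blkU U h) 1 0 0) y =
      -Dd Complex.I (Dd Complex.I U) (pr y) (tl y) := by
    have e : christoffel (blkU U h) 1 0 0 = Y (fun z t => -Dd Complex.I U z t) :=
      funext (C100 hU hh)
    rw [e, pdY1 (sm_neg (hU.dd Complex.I))]
    exact Dd_negF Complex.I (pr y) (tl y)
  have e2 : pd 0 (christoffel (blkU U h) 1 1 0) y = Dd 1 (Dd 1 U) (pr y) (tl y) := by
    have e : christoffel (blkU U h) 1 1 0 = Y (Dd 1 U) := funext (C110 hU hh)
    rw [e, pdY0 (hU.dd 1)]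
    rfl
  have e4 : lap (fun z => U z (tl y)) (pr y) = Dd 1 (Dd 1 U) (pr y) (tl y)
    + Dd Complex.I (Dd Complex.I U) (pr y) (tl y) := rfl
  unfold curv
  rw [sum2, e1, e2, e4]
  have e3 : ∀ s : Fin m, (christoffel (blkU U h) 1 1 s.succ.succ y *
      christoffel (blkU U h) s.succ.succ 0 0 y - christoffel (blkU U h) 1 0 s.succ.succ y *
      christoffel (blkU U h) s.succ.succ 1 0 y) =
      Dt s U (pr y) (tl y) * Wm U h s (pr y) (tl y) := by
    intro s
    rw [C11s hU hh, Cs00 hU hh, C10s hU hh]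
    ring
  simp only [e3]
  simp only [C000 hU hh, C010 hU hh, C100 hU hh, C110 hU hh, C101 hU hh, C111 hU hh]
  ring

theorem Rs00s (s : Fin m) : curv (blkU U h) s.succ.succ 0 0 s.succ.succ y =
    Dt s (Wm U h s) (pr y) (tl y)
      + ∑ t, christoffel (h (pr y)) s s t (tl y) * Wm U h t (pr y) (tl y)
      - Dt s U (pr y) (tl y) * Wm U h s (pr y) (tl y)
      - (1 / 2) * Dd 1 (Am h 1 s s) (pr y) (tl y)
      + (1 / 2) * Am h 1 s s (pr y) (tl y) * Dd 1 U (pr y) (tl y)
      - (1 / 2) * Am h Complex.I s s (pr y) (tl y) * Dd Complex.I U (pr y) (tl y)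
      - (1 / 4) * ∑ t, Am h 1 s t (pr y) (tl y) * Am h 1 t s (pr y) (tl y) := by
  have e1 : pd s.succ.succ (christoffel (blkU U h) s.succ.succ 0 0) y =
      Dt s (Wm U h s) (pr y) (tl y) := by
    have e : christoffel (blkU U h) s.succ.succ 0 0 = Y (Wm U h s) :=
      funext fun y => Cs00 hU hh y s
    rw [e, pdYs (sm_wm hU hh s)]
    rfl
  have e2 : pd 0 (christoffel (blkU U h) s.succ.succ s.succ.succ 0) y =
      (1 / 2) * Dd 1 (Am h 1 s s) (pr y) (tl y) := by
    have e : christoffel (blkU U h) s.succ.succ s.succ.succ 0 =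
      Y (fun z t => (1 / 2) * Am h 1 s s z t) := funext fun y => Cst0 hU hh y s s
    rw [e, pdY0 ((Sm.cst _).mul (sm_am hh 1 s s))]
    exact Dd_cmul (sm_am hh 1 s s) (1 / 2) 1 (pr y) (tl y)
  unfold curv
  rw [sum2, e1, e2]
  have e3 : ∀ t : Fin m, (christoffel (blkU U h) s.succ.succ s.succ.succ t.succ.succ y *
      christoffel (blkU U h) t.succ.succ 0 0 y - christoffel (blkU U h) s.succ.succ 0 t.succ.succ y *
      christoffel (blkU U h) t.succ.succ s.succ.succ 0 y) =
      christoffel (h (pr y)) s s t (tl y) * Wm U h t (pr y) (tl y)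
      - (1 / 4) * (Am h 1 s t (pr y) (tl y) * Am h 1 t s (pr y) (tl y)) := by
    intro t
    rw [Cs00 hU hh, Cs0t hU hh, Cst0 hU hh, Cstu hU hh]
    ring
  simp only [e3]
  rw [Finset.sum_sub_distrib, ← Finset.mul_sum]
  simp only [C000 hU hh, C0s0 hU hh, Cs00 hU hh, Cst0 hU hh, Cst1 hU hh, C100 hU hh, C1s0 hU hh,
    Cs01 hU hh]
  ring

theorem Rs11s (s : Fin m) : curv (blkU U h) s.succ.succ 1 1 s.succ.succ y =
    Dt s (Wm U h s) (pr y) (tl y)
      + ∑ t, christoffel (h (pr y)) s s t (tl y) * Wm U h t (pr y) (tl y)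
      - Dt s U (pr y) (tl y) * Wm U h s (pr y) (tl y)
      - (1 / 2) * Dd Complex.I (Am h Complex.I s s) (pr y) (tl y)
      - (1 / 2) * Am h 1 s s (pr y) (tl y) * Dd 1 U (pr y) (tl y)
      + (1 / 2) * Am h Complex.I s s (pr y) (tl y) * Dd Complex.I U (pr y) (tl y)
      - (1 / 4) * ∑ t, Am h Complex.I s t (pr y) (tl y) * Am h Complex.I t s (pr y) (tl y) := by
  have e1 : pd s.succ.succ (christoffel (blkU U h) s.succ.succ 1 1) y =
      Dt s (Wm U h s) (pr y) (tl y) := by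
    have e : christoffel (blkU U h) s.succ.succ 1 1 = Y (Wm U h s) :=
      funext fun y => Cs11 hU hh y s
    rw [e, pdYs (sm_wm hU hh s)]
    rfl
  have e2 : pd 1 (christoffel (blkU U h) s.succ.succ s.succ.succ 1) y =
      (1 / 2) * Dd Complex.I (Am h Complex.I s s) (pr y) (tl y) := by
    have e : christoffel (blkU U h) s.succ.succ s.succ.succ 1 =
      Y (fun z t => (1 / 2) * Am h Complex.I s s z t) := funext fun y => Cst1 hU hh y s s
    rw [e, pdY1 ((Sm.cst _).mul (sm_am hh Complex.I s s))]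
    exact Dd_cmul (sm_am hh Complex.I s s) (1 / 2) Complex.I (pr y) (tl y)
  unfold curv
  rw [sum2, e1, e2]
  have e3 : ∀ t : Fin m, (christoffel (blkU U h) s.succ.succ s.succ.succ t.succ.succ y *
      christoffel (blkU U h) t.succ.succ 1 1 y - christoffel (blkU U h) s.succ.succ 1 t.succ.succ y *
      christoffel (blkU U h) t.succ.succ s.succ.succ 1 y) =
      christoffel (h (pr y)) s s t (tl y) * Wm U h t (pr y) (tl y)
      - (1 / 4) * (Am h Complex.I s t (pr y) (tl y) * Am h Complex.I t s (pr y) (tl y)) := by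
    intro t
    rw [Cs11 hU hh, Cs1t hU hh, Cst1 hU hh, Cstu hU hh]
    ring
  simp only [e3]
  rw [Finset.sum_sub_distrib, ← Finset.mul_sum]
  simp only [C011 hU hh, C0s1 hU hh, Cs11 hU hh, Cst0 hU hh, Cst1 hU hh, C111 hU hh, C1s1 hU hh,
    Cs10 hU hh]
  ring

theorem Db (v : ℂ) (j k : Fin m) (z : ℂ) (t : Fin m → ℝ) : Dd v (Bm U h v j k) z t =
    Real.exp (-2 * U z t) * (Dd v U z t * Dd v (he h j k) z t
      - (1 / 2) * Dd v (Dd v (he h j k)) z t) := by
  unfold Bm
  rw [Dd_cmul ((sm_exU hU (-2)).mul ((sm_he hh j k).dd v)),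
    Dd_mul (sm_exU hU (-2)) ((sm_he hh j k).dd v), Dd_expU hU]
  ring

/-- the Hessian -/
def Hs (U : ℂ → (Fin m → ℝ) → ℝ) (h : ℂ → Coord m) (j k : Fin m) (z : ℂ) (t : Fin m → ℝ) : ℝ :=
  Dt j (Dt k U) z t - ∑ l, christoffel (h z) l j k t * Dt l U z t

theorem R0jk0 (j k : Fin m) : curv (blkU U h) 0 j.succ.succ k.succ.succ 0 y =
    Dd 1 (Bm U h 1 j k) (pr y) (tl y) + Dd 1 U (pr y) (tl y) * Bm U h 1 j k (pr y) (tl y)
      + Dd Complex.I U (pr y) (tl y) * Bm U h Complex.I j k (pr y) (tl y)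
      - (1 / 2) * ∑ t, Bm U h 1 j t (pr y) (tl y) * Am h 1 t k (pr y) (tl y)
      - Hs U h j k (pr y) (tl y) - Dt j U (pr y) (tl y) * Dt k U (pr y) (tl y) := by
  have e1 : pd 0 (christoffel (blkU U h) 0 j.succ.succ k.succ.succ) y =
      Dd 1 (Bm U h 1 j k) (pr y) (tl y) := by
    have e : christoffel (blkU U h) 0 j.succ.succ k.succ.succ = Y (Bm U h 1 j k) :=
      funext fun y => C0st hU hh y j k
    rw [e, pdY0 (sm_bm hU hh 1 j k)]
    rfl
  have e2 : pd j.succ.succ (christoffel (blkU U h) 0 0 k.succ.succ) y =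
      Dt j (Dt k U) (pr y) (tl y) := by
    have e : christoffel (blkU U h) 0 0 k.succ.succ = Y (Dt k U) := funext fun y => C00s hU hh y k
    rw [e, pdYs (hU.dt k)]
    rfl
  unfold curv
  rw [sum2, e1, e2]
  have e3 : ∀ t : Fin m, (christoffel (blkU U h) 0 0 t.succ.succ y *
      christoffel (blkU U h) t.succ.succ j.succ.succ k.succ.succ y -
      christoffel (blkU U h) 0 j.succ.succ t.succ.succ y *
      christoffel (blkU U h) t.succ.succ 0 k.succ.succ y) =
      christoffel (h (pr y)) t j k (tl y) * Dt t U (pr y) (tl y)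
      - (1 / 2) * (Bm U h 1 j t (pr y) (tl y) * Am h 1 t k (pr y) (tl y)) := by
    intro t
    rw [C00s hU hh, C0st hU hh, Cs0t hU hh, Cstu hU hh]
    ring
  simp only [e3]
  rw [Finset.sum_sub_distrib, ← Finset.mul_sum]
  simp only [C000 hU hh, C0st hU hh, C0s0 hU hh, C00s hU hh, C001 hU hh, C1st hU hh, C0s1 hU hh,
    C10s hU hh]
  unfold Hs
  ring

theorem R1jk1 (j k : Fin m) : curv (blkU U h) 1 j.succ.succ k.succ.succ 1 y =
    Dd Complex.I (Bm U h Complex.I j k) (pr y) (tl y)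
      + Dd 1 U (pr y) (tl y) * Bm U h 1 j k (pr y) (tl y)
      + Dd Complex.I U (pr y) (tl y) * Bm U h Complex.I j k (pr y) (tl y)
      - (1 / 2) * ∑ t, Bm U h Complex.I j t (pr y) (tl y) * Am h Complex.I t k (pr y) (tl y)
      - Hs U h j k (pr y) (tl y) - Dt j U (pr y) (tl y) * Dt k U (pr y) (tl y) := by
  have e1 : pd 1 (christoffel (blkU U h) 1 j.succ.succ k.succ.succ) y =
      Dd Complex.I (Bm U h Complex.I j k) (pr y) (tl y) := by
    have e : christoffel (blkU U h) 1 j.succ.succ k.succ.succ = Y (Bm U h Complex.I j k) :=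
      funext fun y => C1st hU hh y j k
    rw [e, pdY1 (sm_bm hU hh Complex.I j k)]
    rfl
  have e2 : pd j.succ.succ (christoffel (blkU U h) 1 1 k.succ.succ) y =
      Dt j (Dt k U) (pr y) (tl y) := by
    have e : christoffel (blkU U h) 1 1 k.succ.succ = Y (Dt k U) := funext fun y => C11s hU hh y k
    rw [e, pdYs (hU.dt k)]
    rfl
  unfold curv
  rw [sum2, e1, e2]
  have e3 : ∀ t : Fin m, (christoffel (blkU U h) 1 1 t.succ.succ y *
      christoffel (blkU U h) t.succ.succ j.succ.succ k.succ.succ y -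
      christoffel (blkU U h) 1 j.succ.succ t.succ.succ y *
      christoffel (blkU U h) t.succ.succ 1 k.succ.succ y) =
      christoffel (h (pr y)) t j k (tl y) * Dt t U (pr y) (tl y)
      - (1 / 2) * (Bm U h Complex.I j t (pr y) (tl y) * Am h Complex.I t k (pr y) (tl y)) := by
    intro t
    rw [C11s hU hh, C1st hU hh, Cs1t hU hh, Cstu hU hh]
    ring
  simp only [e3]
  rw [Finset.sum_sub_distrib, ← Finset.mul_sum]
  simp only [C111 hU hh, C0st hU hh, C1s1 hU hh, C01s hU hh, C110 hU hh, C1st hU hh, C1s0 hU hh,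
    C11s hU hh]
  unfold Hs
  ring

theorem Rsjks (s j k : Fin m) : curv (blkU U h) s.succ.succ j.succ.succ k.succ.succ s.succ.succ y =
    curv (h (pr y)) s j k s (tl y)
      + (1 / 2) * (Am h 1 s s (pr y) (tl y) * Bm U h 1 j k (pr y) (tl y)
        - Am h 1 s j (pr y) (tl y) * Bm U h 1 s k (pr y) (tl y))
      + (1 / 2) * (Am h Complex.I s s (pr y) (tl y) * Bm U h Complex.I j k (pr y) (tl y)
        - Am h Complex.I s j (pr y) (tl y) * Bm U h Complex.I s k (pr y) (tl y)) := by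
  have e1 : ∀ a b c d : Fin m, pd a.succ.succ (christoffel (blkU U h) b.succ.succ c.succ.succ
      d.succ.succ) y = pd a (christoffel (h (pr y)) b c d) (tl y) := by
    intro a b c d
    have e : christoffel (blkU U h) b.succ.succ c.succ.succ d.succ.succ =
      Y (fun z t => christoffel (h z) b c d t) := funext fun y => Cstu hU hh y b c d
    rw [e, pdYs (sm_chr hh b c d)]
    rfl
  unfold curv
  rw [sum2, e1, e1]
  simp only [Cstu hU hh, Cst0 hU hh, Cst1 hU hh, C0st hU hh, C1st hU hh]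
  ring

end curvs

end Pool.Agent.BCS.H49U
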