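import Pool.Agent.Helper23_BCS.SCC
import Pool.Agent.Helper99_BCS.GSM

/-!
# Row BLK of squad BCS, part A: calculus and the inverse matrix (helper49)
-/

noncomputable section

open scoped ContDiff Topology
open Set

namespace Pool.Agent.BCS.H49

open Pool.Agent.SecondKind (Coord pd inv christoffel ricci curv)
open Pool.Agent.BCS.H23 (Dv Dv_smooth LL LL_apply LL_zero LL_one LL_succ pd_hat slice_dx slice_dy
  slice_pd)

variable {m : ℕ}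

/-- smooth functions on `ℂ × ℝ^m` -/
def Sm (F : ℂ → (Fin m → ℝ) → ℝ) : Prop := ContDiff ℝ ∞ (fun p : ℂ × (Fin m → ℝ) => F p.1 p.2)

/-- pull back to the coordinates -/
def Y (F : ℂ → (Fin m → ℝ) → ℝ) : (Fin (m + 2) → ℝ) → ℝ := fun y => F (pr y) (tl y)

/-- directional derivative in the base -/
def Dd (v : ℂ) (F : ℂ → (Fin m → ℝ) → ℝ) : ℂ → (Fin m → ℝ) → ℝ :=
  fun z t => fderiv ℝ (fun z => F z t) z v

/-- derivative in the fibre -/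
def Dt (i : Fin m) (F : ℂ → (Fin m → ℝ) → ℝ) : ℂ → (Fin m → ℝ) → ℝ := fun z t => pd i (F z) t

theorem Sm.diff {F : ℂ → (Fin m → ℝ) → ℝ} (h : Sm F) (z : ℂ) (t : Fin m → ℝ) :
    DifferentiableAt ℝ (fun z => F z t) z := by
  have h1 : DifferentiableAt ℝ (fun p : ℂ × (Fin m → ℝ) => F p.1 p.2) (z, t) :=
    (h.differentiable (by simp)) _
  exact (h1.hasFDerivAt.comp z (hasFDerivAt_prodMk_left (𝕜 := ℝ) z t)).differentiableAt

theorem Dd_eq {F : ℂ → (Fin m → ℝ) → ℝ} (h : Sm F) (v : ℂ) :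
    (fun p : ℂ × (Fin m → ℝ) => Dd v F p.1 p.2) =
      Dv (v, (0 : Fin m → ℝ)) (fun p : ℂ × (Fin m → ℝ) => F p.1 p.2) := by
  funext p
  have h1 : DifferentiableAt ℝ (fun p : ℂ × (Fin m → ℝ) => F p.1 p.2) (p.1, p.2) :=
    (h.differentiable (by simp)) _
  have h2 := h1.hasFDerivAt.comp p.1 (hasFDerivAt_prodMk_left (𝕜 := ℝ) p.1 p.2)
  unfold Dd Dv
  have h3 : fderiv ℝ (fun z => F z p.2) p.1 = _ := h2.fderiv
  rw [h3]
  rfl

theorem Dt_eq {F : ℂ → (Fin m → ℝ) → ℝ} (h : Sm F) (i : Fin m) :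
    (fun p : ℂ × (Fin m → ℝ) => Dt i F p.1 p.2) =
      Dv ((0 : ℂ), (Pi.single i 1 : Fin m → ℝ)) (fun p : ℂ × (Fin m → ℝ) => F p.1 p.2) := by
  funext p
  exact congrFun (slice_pd (H := fun p : ℂ × (Fin m → ℝ) => F p.1 p.2) h p.1 i) p.2

theorem Sm.dd {F : ℂ → (Fin m → ℝ) → ℝ} (h : Sm F) (v : ℂ) : Sm (Dd v F) := by
  unfold Sm
  rw [Dd_eq h v]
  exact Dv_smooth h

theorem Sm.dt {F : ℂ → (Fin m → ℝ) → ℝ} (h : Sm F) (i : Fin m) : Sm (Dt i F) := by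
  unfold Sm
  rw [Dt_eq h i]
  exact Dv_smooth h

theorem Sm.mul {F G : ℂ → (Fin m → ℝ) → ℝ} (h : Sm F) (h' : Sm G) :
    Sm (fun z t => F z t * G z t) := ContDiff.mul h h'

theorem Sm.add {F G : ℂ → (Fin m → ℝ) → ℝ} (h : Sm F) (h' : Sm G) :
    Sm (fun z t => F z t + G z t) := ContDiff.add h h'

theorem Sm.sum {F : Fin m → ℂ → (Fin m → ℝ) → ℝ} (h : ∀ i, Sm (F i)) :
    Sm (fun z t => ∑ i, F i z t) := ContDiff.sum fun i _ => h i

theorem Sm.cst (c : ℝ) : Sm (fun (_ : ℂ) (_ : Fin m → ℝ) => c) := contDiff_const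

theorem Sm.base {φ : ℂ → ℝ} (h : ContDiff ℝ ∞ φ) : Sm (fun z (_ : Fin m → ℝ) => φ z) :=
  h.comp contDiff_fst

theorem pdY {F : ℂ → (Fin m → ℝ) → ℝ} (h : Sm F) (k : Fin (m + 2)) : pd k (Y F) =
    fun y => Dv (LL (Pi.single k 1)) (fun p : ℂ × (Fin m → ℝ) => F p.1 p.2) (pr y, tl y) := by
  have h1 := pd_hat (H := fun p : ℂ × (Fin m → ℝ) => F p.1 p.2) h k
  simp only [LL_apply] at h1 ⊢
  exact h1

theorem pdY0 {F : ℂ → (Fin m → ℝ) → ℝ} (h : Sm F) : pd 0 (Y F) = Y (Dd 1 F) := by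
  rw [pdY h 0, LL_zero, ← Dd_eq h]
  rfl

theorem pdY1 {F : ℂ → (Fin m → ℝ) → ℝ} (h : Sm F) : pd 1 (Y F) = Y (Dd Complex.I F) := by
  rw [pdY h 1, LL_one, ← Dd_eq h]
  rfl

theorem pdYs {F : ℂ → (Fin m → ℝ) → ℝ} (h : Sm F) (i : Fin m) :
    pd i.succ.succ (Y F) = Y (Dt i F) := by
  rw [pdY h, LL_succ, ← Dt_eq h]
  rfl

theorem Dd_mul {F G : ℂ → (Fin m → ℝ) → ℝ} (h : Sm F) (h' : Sm G) (v : ℂ) (z : ℂ)
    (t : Fin m → ℝ) : Dd v (fun z t => F z t * G z t) z t =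
      F z t * Dd v G z t + G z t * Dd v F z t := by
  unfold Dd
  rw [fderiv_fun_mul (h.diff z t) (h'.diff z t)]
  rfl

theorem Dd_cmul {F : ℂ → (Fin m → ℝ) → ℝ} (h : Sm F) (c : ℝ) (v : ℂ) (z : ℂ)
    (t : Fin m → ℝ) : Dd v (fun z t => c * F z t) z t = c * Dd v F z t := by
  unfold Dd
  rw [fderiv_const_mul (h.diff z t)]
  rfl

theorem Dd_sum {F : Fin m → ℂ → (Fin m → ℝ) → ℝ} (h : ∀ i, Sm (F i)) (v : ℂ) (z : ℂ)
    (t : Fin m → ℝ) : Dd v (fun z t => ∑ i, F i z t) z t = ∑ i, Dd v (F i) z t := by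
  unfold Dd
  rw [fderiv_fun_sum (fun i _ => (h i).diff z t)]
  simp

theorem Dd_exp {φ : ℂ → ℝ} (h : ContDiff ℝ ∞ φ) (c : ℝ) (v : ℂ) (z : ℂ) (t : Fin m → ℝ) :
    Dd v (fun z _ => Real.exp (c * φ z)) z t = Real.exp (c * φ z) * (c * fderiv ℝ φ z v) := by
  unfold Dd
  have h1 : DifferentiableAt ℝ φ z := (h.differentiable (by simp)) _
  rw [fderiv_exp (h1.const_mul c), fderiv_const_mul h1]
  rfl

theorem sum2 (F : Fin (m + 2) → ℝ) : ∑ k, F k = F 0 + F 1 + ∑ i : Fin m, F i.succ.succ := by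
  rw [Fin.sum_univ_succ, Fin.sum_univ_succ, ← add_assoc]
  rfl

section blkEntries

variable (φ : ℂ → ℝ) (h : ℂ → Coord m) (y : Fin (m + 2) → ℝ)

theorem blk00 : blk φ h y 0 0 = Real.exp (2 * φ (pr y)) := rfl
theorem blk01 : blk φ h y 0 1 = 0 := rfl
theorem blk10 : blk φ h y 1 0 = 0 := rfl
theorem blk11 : blk φ h y 1 1 = Real.exp (2 * φ (pr y)) := rfl
theorem blk0s (j : Fin m) : blk φ h y 0 j.succ.succ = 0 := rfl
theorem blk1s (j : Fin m) : blk φ h y 1 j.succ.succ = 0 := rfl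
theorem blks0 (j : Fin m) : blk φ h y j.succ.succ 0 = 0 := rfl
theorem blks1 (j : Fin m) : blk φ h y j.succ.succ 1 = 0 := rfl
theorem blkss (i j : Fin m) : blk φ h y i.succ.succ j.succ.succ = h (pr y) (tl y) i j := rfl

end blkEntries

end Pool.Agent.BCS.H49
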