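import Pool.Agent.Helper49_BCS.BlkA

/-!
# Row BLK of squad BCS, part B: the inverse matrix and the Christoffel symbols (helper49)
-/

noncomputable section

open scoped ContDiff Topology
open Set

namespace Pool.Agent.BCS.H49

open Pool.Agent.SecondKind (Coord pd inv christoffel ricci curv)

variable {m : ℕ}

/-- the entries of the inverse of the fibre metric -/
def hi (h : ℂ → Coord m) (i j : Fin m) (z : ℂ) (t : Fin m → ℝ) : ℝ := inv (h z) i j t

/-- the inverse of the fibre metric -/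
def hiC (h : ℂ → Coord m) : ℂ → Coord m := fun z t i j => inv (h z) i j t

theorem hiC_apply (h : ℂ → Coord m) (z : ℂ) (t : Fin m → ℝ) (i j : Fin m) :
    hiC h z t i j = inv (h z) i j t := rfl

theorem inv_blk {φ : ℂ → ℝ} {h : ℂ → Coord m} (hh : FibM h) (y : Fin (m + 2) → ℝ) :
    (Matrix.of (blk φ h y))⁻¹ =
      Matrix.of (blk (fun z => -φ z) (hiC h) y) := by
  have hdet : (Matrix.of (h (pr y) (tl y))).det ≠ 0 := ((H99.gsm m h hh).1 _ _).ne'
  have hmul : Matrix.of (h (pr y) (tl y)) * (Matrix.of (h (pr y) (tl y)))⁻¹ = 1 :=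
    Matrix.mul_nonsing_inv _ (isUnit_iff_ne_zero.2 hdet)
  have e1 : Real.exp (2 * φ (pr y)) * Real.exp (2 * -φ (pr y)) = 1 := by
    rw [← Real.exp_add]
    simp
  have n1 : ∀ i : Fin m, ¬ ((1 : Fin (m + 2)) = i.succ.succ) := by
    intro i hi
    have := congrArg Fin.val hi
    simp at this
  have n2 : ∀ i : Fin m, ¬ (i.succ.succ = (1 : Fin (m + 2))) := fun i hi => n1 i hi.symm
  apply Matrix.inv_eq_right_inv
  ext k l
  rw [Matrix.mul_apply, sum2]
  simp only [Matrix.of_apply]
  refine Fin.cases ?_ (fun k => Fin.cases ?_ (fun k => ?_) k) k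
  · refine Fin.cases ?_ (fun l => Fin.cases ?_ (fun l => ?_) l) l
    · rw [blk00, blk00, blk01]
      simp only [blk0s, zero_mul, Finset.sum_const_zero, add_zero, Matrix.one_apply_eq]
      exact e1
    · change blk φ h y 0 0 * blk _ _ y 0 1 + blk φ h y 0 1 * blk _ _ y 1 1 +
        ∑ i : Fin m, blk φ h y 0 i.succ.succ * blk _ _ y i.succ.succ 1 =
        (1 : Matrix (Fin (m + 2)) (Fin (m + 2)) ℝ) 0 1
      rw [blk01, blk01]
      simp [blk0s]
    · rw [blk0s, blk01]
      simp [blk0s, Matrix.one_apply, (Fin.succ_ne_zero _).symm]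
  · refine Fin.cases ?_ (fun l => Fin.cases ?_ (fun l => ?_) l) l
    · change blk φ h y 1 0 * blk _ _ y 0 0 + blk φ h y 1 1 * blk _ _ y 1 0 +
        ∑ i : Fin m, blk φ h y 1 i.succ.succ * blk _ _ y i.succ.succ 0 =
        (1 : Matrix (Fin (m + 2)) (Fin (m + 2)) ℝ) 1 0
      rw [blk10, blk10]
      simp [blk1s]
    · change blk φ h y 1 0 * blk _ _ y 0 1 + blk φ h y 1 1 * blk _ _ y 1 1 +
        ∑ i : Fin m, blk φ h y 1 i.succ.succ * blk _ _ y i.succ.succ 1 =
        (1 : Matrix (Fin (m + 2)) (Fin (m + 2)) ℝ) 1 1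
      rw [blk10, blk11, blk11]
      simp only [blk1s, zero_mul, Finset.sum_const_zero, add_zero, zero_add, Matrix.one_apply_eq]
      exact e1
    · change blk φ h y 1 0 * blk _ _ y 0 l.succ.succ + blk φ h y 1 1 * blk _ _ y 1 l.succ.succ +
        ∑ i : Fin m, blk φ h y 1 i.succ.succ * blk _ _ y i.succ.succ l.succ.succ =
        (1 : Matrix (Fin (m + 2)) (Fin (m + 2)) ℝ) 1 l.succ.succ
      rw [blk10, blk1s]
      simp [blk1s, Matrix.one_apply, n1]
  · refine Fin.cases ?_ (fun l => Fin.cases ?_ (fun l => ?_) l) l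
    · rw [blks0, blks1]
      simp only [blks0, zero_mul, mul_zero, Finset.sum_const_zero, add_zero]
      rw [Matrix.one_apply_ne (Fin.succ_ne_zero _)]
    · change blk φ h y k.succ.succ 0 * blk _ _ y 0 1 + blk φ h y k.succ.succ 1 * blk _ _ y 1 1 +
        ∑ i : Fin m, blk φ h y k.succ.succ i.succ.succ * blk _ _ y i.succ.succ 1 =
        (1 : Matrix (Fin (m + 2)) (Fin (m + 2)) ℝ) k.succ.succ 1
      rw [blks0, blks1]
      simp only [blks1, zero_mul, mul_zero, Finset.sum_const_zero, add_zero]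
      rw [Matrix.one_apply_ne (n2 _)]
    · rw [blks0, blks1]
      simp only [zero_mul, zero_add, blkss]
      have h2 := congrFun (congrFun hmul k) l
      rw [Matrix.mul_apply] at h2
      simp only [Matrix.of_apply] at h2
      simp only [hiC_apply]
      unfold inv
      rw [h2, Matrix.one_apply, Matrix.one_apply]
      simp [Fin.succ_inj]

section invEntries

variable {φ : ℂ → ℝ} {h : ℂ → Coord m} (hh : FibM h) (y : Fin (m + 2) → ℝ)

include hh

theorem inv00 : inv (blk φ h) 0 0 y = Real.exp (-2 * φ (pr y)) := by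
  unfold inv
  rw [inv_blk hh, Matrix.of_apply, blk00]
  ring_nf

theorem inv01 : inv (blk φ h) 0 1 y = 0 := by
  unfold inv
  rw [inv_blk hh, Matrix.of_apply, blk01]

theorem inv10 : inv (blk φ h) 1 0 y = 0 := by
  unfold inv
  rw [inv_blk hh, Matrix.of_apply, blk10]

theorem inv11 : inv (blk φ h) 1 1 y = Real.exp (-2 * φ (pr y)) := by
  unfold inv
  rw [inv_blk hh, Matrix.of_apply, blk11]
  ring_nf

theorem inv0s (j : Fin m) : inv (blk φ h) 0 j.succ.succ y = 0 := by
  unfold inv
  rw [inv_blk hh, Matrix.of_apply, blk0s]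

theorem inv1s (j : Fin m) : inv (blk φ h) 1 j.succ.succ y = 0 := by
  unfold inv
  rw [inv_blk hh, Matrix.of_apply, blk1s]

theorem invs0 (j : Fin m) : inv (blk φ h) j.succ.succ 0 y = 0 := by
  unfold inv
  rw [inv_blk hh, Matrix.of_apply, blks0]

theorem invs1 (j : Fin m) : inv (blk φ h) j.succ.succ 1 y = 0 := by
  unfold inv
  rw [inv_blk hh, Matrix.of_apply, blks1]

theorem invss (i j : Fin m) : inv (blk φ h) i.succ.succ j.succ.succ y =
    hi h i j (pr y) (tl y) := by
  unfold hi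
  have h1 : inv (blk φ h) i.succ.succ j.succ.succ y =
      ((Matrix.of (blk φ h y))⁻¹) i.succ.succ j.succ.succ := rfl
  rw [h1, inv_blk hh, Matrix.of_apply, blkss]
  rfl

end invEntries

end Pool.Agent.BCS.H49
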