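import Pool.Agent.Helper49_BCS.BlkB

/-!
# Row BLK of squad BCS, part C: the Christoffel symbols (helper49)
-/

noncomputable section

open scoped ContDiff Topology
open Set

namespace Pool.Agent.BCS.H49

open Pool.Agent.SecondKind (Coord pd inv christoffel ricci curv)

variable {m : ℕ}

/-- the entries of the metric as functions -/
def he (h : ℂ → Coord m) (i j : Fin m) : ℂ → (Fin m → ℝ) → ℝ := fun z t => h z t i j

theorem sm_he {h : ℂ → Coord m} (hh : FibM h) (i j : Fin m) : Sm (he h i j) := hh.smooth i j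

theorem sm_hi {h : ℂ → Coord m} (hh : FibM h) (i j : Fin m) : Sm (hi h i j) := by
  have hdet : Sm (fun z t => (Matrix.of (h z t)).det) := by
    have e : (fun p : ℂ × (Fin m → ℝ) => (Matrix.of (h p.1 p.2)).det) =
        fun p => ∑ σ : Equiv.Perm (Fin m), ((Equiv.Perm.sign σ : ℤ) : ℝ) *
          ∏ i, h p.1 p.2 (σ i) i := by
      funext p
      rw [Matrix.det_apply']
      rfl
    unfold Sm
    rw [e]
    exact ContDiff.sum (fun σ _ => contDiff_const.mul
      (contDiff_prod (fun i _ => hh.smooth (σ i) i)))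
  have hadj : Sm (fun z t => (Matrix.of (h z t)).adjugate i j) := by
    have e : (fun p : ℂ × (Fin m → ℝ) => (Matrix.of (h p.1 p.2)).adjugate i j) =
        fun p => ∑ σ : Equiv.Perm (Fin m), ((Equiv.Perm.sign σ : ℤ) : ℝ) *
          ∏ k, (if σ k = j then (Pi.single i (1 : ℝ) : Fin m → ℝ) k else h p.1 p.2 (σ k) k) := by
      funext p
      rw [Matrix.adjugate_apply, Matrix.det_apply']
      refine Finset.sum_congr rfl fun σ _ => ?_
      congr 1
      refine Finset.prod_congr rfl fun k _ => ?_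
      rw [Matrix.updateRow_apply]
      rfl
    unfold Sm
    rw [e]
    refine ContDiff.sum (fun σ _ => contDiff_const.mul (contDiff_prod (fun k _ => ?_)))
    by_cases hk : σ k = j
    · simp only [hk, if_true]
      exact contDiff_const
    · simp only [hk, if_false]
      exact hh.smooth (σ k) k
  have hne : ∀ p : ℂ × (Fin m → ℝ), (Matrix.of (h p.1 p.2)).det ≠ 0 :=
    fun p => ((H99.gsm m h hh).1 _ _).ne'
  have e : (fun p : ℂ × (Fin m → ℝ) => hi h i j p.1 p.2) =
      fun p => ((Matrix.of (h p.1 p.2)).det)⁻¹ * (Matrix.of (h p.1 p.2)).adjugate i j := by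
    funext p
    unfold hi inv
    rw [Matrix.inv_def, Ring.inverse_eq_inv', Matrix.smul_apply]
    rfl
  unfold Sm
  rw [e]
  exact (hdet.inv hne).mul hadj

section pdEntries

variable {φ : ℂ → ℝ} {h : ℂ → Coord m} (hφ : ContDiff ℝ ∞ φ) (hh : FibM h)
  (y : Fin (m + 2) → ℝ)

theorem pd_zero' (k : Fin (m + 2)) : pd k (fun _ : Fin (m + 2) → ℝ => (0 : ℝ)) y = 0 := by
  unfold pd
  simp

include hφ

theorem sm_exp : Sm (fun z (_ : Fin m → ℝ) => Real.exp (2 * φ z)) :=
  Sm.base ((contDiff_const.mul hφ).exp)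

theorem p0_00 : pd 0 (fun z => blk φ h z 0 0) y =
    Real.exp (2 * φ (pr y)) * (2 * dx φ (pr y)) := by
  have h1 := congrFun (pdY0 (sm_exp (m := m) hφ)) y
  have h2 : Y (fun z (_ : Fin m → ℝ) => Real.exp (2 * φ z)) = fun z => blk φ h z 0 0 := rfl
  rw [h2] at h1
  rw [h1]
  exact Dd_exp hφ 2 1 (pr y) (tl y)

theorem p1_00 : pd 1 (fun z => blk φ h z 0 0) y =
    Real.exp (2 * φ (pr y)) * (2 * dy φ (pr y)) := by
  have h1 := congrFun (pdY1 (sm_exp (m := m) hφ)) y
  have h2 : Y (fun z (_ : Fin m → ℝ) => Real.exp (2 * φ z)) = fun z => blk φ h z 0 0 := rfl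
  rw [h2] at h1
  rw [h1]
  exact Dd_exp hφ 2 Complex.I (pr y) (tl y)

theorem ps_00 (i : Fin m) : pd i.succ.succ (fun z => blk φ h z 0 0) y = 0 := by
  have h1 := congrFun (pdYs (sm_exp (m := m) hφ) i) y
  have h2 : Y (fun z (_ : Fin m → ℝ) => Real.exp (2 * φ z)) = fun z => blk φ h z 0 0 := rfl
  rw [h2] at h1
  rw [h1]
  unfold Y Dt pd
  simp

theorem p0_11 : pd 0 (fun z => blk φ h z 1 1) y =
    Real.exp (2 * φ (pr y)) * (2 * dx φ (pr y)) := p0_00 (h := h) hφ y

theorem p1_11 : pd 1 (fun z => blk φ h z 1 1) y =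
    Real.exp (2 * φ (pr y)) * (2 * dy φ (pr y)) := p1_00 (h := h) hφ y

theorem ps_11 (i : Fin m) : pd i.succ.succ (fun z => blk φ h z 1 1) y = 0 := ps_00 (h := h) hφ y i

omit hφ

theorem pk_01 (k : Fin (m + 2)) : pd k (fun z => blk φ h z 0 1) y = 0 := pd_zero' y k
theorem pk_10 (k : Fin (m + 2)) : pd k (fun z => blk φ h z 1 0) y = 0 := pd_zero' y k
theorem pk_0s (k : Fin (m + 2)) (j : Fin m) : pd k (fun z => blk φ h z 0 j.succ.succ) y = 0 :=
  pd_zero' y k
theorem pk_1s (k : Fin (m + 2)) (j : Fin m) : pd k (fun z => blk φ h z 1 j.succ.succ) y = 0 :=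
  pd_zero' y k
theorem pk_s0 (k : Fin (m + 2)) (j : Fin m) : pd k (fun z => blk φ h z j.succ.succ 0) y = 0 :=
  pd_zero' y k
theorem pk_s1 (k : Fin (m + 2)) (j : Fin m) : pd k (fun z => blk φ h z j.succ.succ 1) y = 0 :=
  pd_zero' y k

include hh

theorem p0_ss (i j : Fin m) : pd 0 (fun z => blk φ h z i.succ.succ j.succ.succ) y =
    Dd 1 (he h i j) (pr y) (tl y) := congrFun (pdY0 (sm_he hh i j)) y

theorem p1_ss (i j : Fin m) : pd 1 (fun z => blk φ h z i.succ.succ j.succ.succ) y =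
    Dd Complex.I (he h i j) (pr y) (tl y) := congrFun (pdY1 (sm_he hh i j)) y

theorem ps_ss (k i j : Fin m) :
    pd k.succ.succ (fun z => blk φ h z i.succ.succ j.succ.succ) y =
    pd k (fun t => h (pr y) t i j) (tl y) := congrFun (pdYs (sm_he hh i j) k) y

end pdEntries

/-- the matrix `(1/2) h⁻¹ ∂_v h` -/
def Am (h : ℂ → Coord m) (v : ℂ) (s t : Fin m) : ℂ → (Fin m → ℝ) → ℝ :=
  fun z x => ∑ l, hi h s l z x * Dd v (he h t l) z x

/-- `-(1/2) e^{-2φ} ∂_v h` -/
def Bm (φ : ℂ → ℝ) (h : ℂ → Coord m) (v : ℂ) (s t : Fin m) : ℂ → (Fin m → ℝ) → ℝ :=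
  fun z x => (-(1 / 2)) * (Real.exp (-2 * φ z) * Dd v (he h s t) z x)

section chris

variable {φ : ℂ → ℝ} {h : ℂ → Coord m} (hφ : ContDiff ℝ ∞ φ) (hh : FibM h)
  (y : Fin (m + 2) → ℝ)

theorem ee (y : Fin (m + 2) → ℝ) : Real.exp (-2 * φ (pr y)) * Real.exp (2 * φ (pr y)) = 1 := by
  rw [← Real.exp_add]
  simp

include hφ hh

theorem C000 : christoffel (blk φ h) 0 0 0 y = dx φ (pr y) := by
  unfold christoffel
  rw [sum2]
  simp only [inv00 hh, inv01 hh, inv0s hh, p0_00 hφ, zero_mul, zero_div, Finset.sum_const_zero]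
  linear_combination dx φ (pr y) * ee (φ := φ) y

theorem C001 : christoffel (blk φ h) 0 0 1 y = dy φ (pr y) := by
  unfold christoffel
  rw [sum2]
  simp only [inv00 hh, inv01 hh, inv0s hh, p1_00 hφ, pk_01, pk_10, zero_mul, zero_div,
    Finset.sum_const_zero]
  linear_combination dy φ (pr y) * ee (φ := φ) y

theorem C010 : christoffel (blk φ h) 0 1 0 y = dy φ (pr y) := by
  unfold christoffel
  rw [sum2]
  simp only [inv00 hh, inv01 hh, inv0s hh, p1_00 hφ, pk_01, pk_10, zero_mul, zero_div,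
    Finset.sum_const_zero]
  linear_combination dy φ (pr y) * ee (φ := φ) y

theorem C011 : christoffel (blk φ h) 0 1 1 y = -dx φ (pr y) := by
  unfold christoffel
  rw [sum2]
  simp only [inv00 hh, inv01 hh, inv0s hh, p0_11 hφ, pk_01, pk_10, zero_mul, zero_div,
    Finset.sum_const_zero]
  linear_combination -dx φ (pr y) * ee (φ := φ) y

theorem C100 : christoffel (blk φ h) 1 0 0 y = -dy φ (pr y) := by
  unfold christoffel
  rw [sum2]
  simp only [inv10 hh, inv11 hh, inv1s hh, p1_00 hφ, pk_01, pk_10, zero_mul, zero_div,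
    Finset.sum_const_zero]
  linear_combination -dy φ (pr y) * ee (φ := φ) y

theorem C101 : christoffel (blk φ h) 1 0 1 y = dx φ (pr y) := by
  unfold christoffel
  rw [sum2]
  simp only [inv10 hh, inv11 hh, inv1s hh, p0_11 hφ, pk_01, pk_10, zero_mul, zero_div,
    Finset.sum_const_zero]
  linear_combination dx φ (pr y) * ee (φ := φ) y

theorem C110 : christoffel (blk φ h) 1 1 0 y = dx φ (pr y) := by
  unfold christoffel
  rw [sum2]
  simp only [inv10 hh, inv11 hh, inv1s hh, p0_11 hφ, pk_01, pk_10, zero_mul, zero_div,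
    Finset.sum_const_zero]
  linear_combination dx φ (pr y) * ee (φ := φ) y

theorem C111 : christoffel (blk φ h) 1 1 1 y = dy φ (pr y) := by
  unfold christoffel
  rw [sum2]
  simp only [inv10 hh, inv11 hh, inv1s hh, p1_11 hφ, zero_mul, zero_div,
    Finset.sum_const_zero]
  linear_combination dy φ (pr y) * ee (φ := φ) y

theorem C00s (s : Fin m) : christoffel (blk φ h) 0 0 s.succ.succ y = 0 := by
  unfold christoffel
  rw [sum2]
  simp [inv00 hh, inv01 hh, inv0s hh, ps_00 hφ, pk_s0, pk_0s]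

theorem C0s0 (s : Fin m) : christoffel (blk φ h) 0 s.succ.succ 0 y = 0 := by
  unfold christoffel
  rw [sum2]
  simp [inv00 hh, inv01 hh, inv0s hh, ps_00 hφ, pk_s0, pk_0s]

theorem C01s (s : Fin m) : christoffel (blk φ h) 0 1 s.succ.succ y = 0 := by
  unfold christoffel
  rw [sum2]
  simp [inv00 hh, inv01 hh, inv0s hh, pk_10, pk_s0, pk_1s]

theorem C0s1 (s : Fin m) : christoffel (blk φ h) 0 s.succ.succ 1 y = 0 := by
  unfold christoffel
  rw [sum2]
  simp [inv00 hh, inv01 hh, inv0s hh, pk_10, pk_s0, pk_s1]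

theorem C10s (s : Fin m) : christoffel (blk φ h) 1 0 s.succ.succ y = 0 := by
  unfold christoffel
  rw [sum2]
  simp [inv10 hh, inv11 hh, inv1s hh, pk_01, pk_s1, pk_0s]

theorem C1s0 (s : Fin m) : christoffel (blk φ h) 1 s.succ.succ 0 y = 0 := by
  unfold christoffel
  rw [sum2]
  simp [inv10 hh, inv11 hh, inv1s hh, pk_01, pk_s1, pk_s0]

theorem C11s (s : Fin m) : christoffel (blk φ h) 1 1 s.succ.succ y = 0 := by
  unfold christoffel
  rw [sum2]
  simp [inv10 hh, inv11 hh, inv1s hh, ps_11 hφ, pk_s1, pk_1s]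

theorem C1s1 (s : Fin m) : christoffel (blk φ h) 1 s.succ.succ 1 y = 0 := by
  unfold christoffel
  rw [sum2]
  simp [inv10 hh, inv11 hh, inv1s hh, ps_11 hφ, pk_s1, pk_1s]

theorem Cs00 (s : Fin m) : christoffel (blk φ h) s.succ.succ 0 0 y = 0 := by
  unfold christoffel
  rw [sum2]
  simp [invs0 hh, invs1 hh, ps_00 hφ, pk_0s]

theorem Cs01 (s : Fin m) : christoffel (blk φ h) s.succ.succ 0 1 y = 0 := by
  unfold christoffel
  rw [sum2]
  simp [invs0 hh, invs1 hh, pk_01, pk_0s, pk_1s]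

theorem Cs10 (s : Fin m) : christoffel (blk φ h) s.succ.succ 1 0 y = 0 := by
  unfold christoffel
  rw [sum2]
  simp [invs0 hh, invs1 hh, pk_10, pk_0s, pk_1s]

theorem Cs11 (s : Fin m) : christoffel (blk φ h) s.succ.succ 1 1 y = 0 := by
  unfold christoffel
  rw [sum2]
  simp [invs0 hh, invs1 hh, ps_11 hφ, pk_1s]

theorem C0st (s t : Fin m) : christoffel (blk φ h) 0 s.succ.succ t.succ.succ y =
    Bm φ h 1 s t (pr y) (tl y) := by
  unfold christoffel Bm
  rw [sum2]
  simp only [inv00 hh, inv01 hh, inv0s hh, pk_s0, p0_ss hh, zero_mul, zero_div,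
    Finset.sum_const_zero]
  ring

theorem C1st (s t : Fin m) : christoffel (blk φ h) 1 s.succ.succ t.succ.succ y =
    Bm φ h Complex.I s t (pr y) (tl y) := by
  unfold christoffel Bm
  rw [sum2]
  simp only [inv10 hh, inv11 hh, inv1s hh, pk_s1, p1_ss hh, zero_mul, zero_div,
    Finset.sum_const_zero]
  ring

theorem Cs0t (s t : Fin m) : christoffel (blk φ h) s.succ.succ 0 t.succ.succ y =
    (1 / 2) * Am h 1 s t (pr y) (tl y) := by
  unfold christoffel Am
  rw [sum2]
  simp only [invs0 hh, invs1 hh, invss hh, pk_0s, p0_ss hh, zero_mul, zero_div, zero_add]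
  rw [Finset.mul_sum]
  refine Finset.sum_congr rfl fun l _ => ?_
  ring

theorem Cst0 (s t : Fin m) : christoffel (blk φ h) s.succ.succ t.succ.succ 0 y =
    (1 / 2) * Am h 1 s t (pr y) (tl y) := by
  unfold christoffel Am
  rw [sum2]
  simp only [invs0 hh, invs1 hh, invss hh, pk_0s, pk_s0, p0_ss hh, zero_mul, zero_div, zero_add]
  rw [Finset.mul_sum]
  refine Finset.sum_congr rfl fun l _ => ?_
  ring

theorem Cs1t (s t : Fin m) : christoffel (blk φ h) s.succ.succ 1 t.succ.succ y =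
    (1 / 2) * Am h Complex.I s t (pr y) (tl y) := by
  unfold christoffel Am
  rw [sum2]
  simp only [invs0 hh, invs1 hh, invss hh, pk_1s, p1_ss hh, zero_mul, zero_div, zero_add]
  rw [Finset.mul_sum]
  refine Finset.sum_congr rfl fun l _ => ?_
  ring

theorem Cst1 (s t : Fin m) : christoffel (blk φ h) s.succ.succ t.succ.succ 1 y =
    (1 / 2) * Am h Complex.I s t (pr y) (tl y) := by
  unfold christoffel Am
  rw [sum2]
  simp only [invs0 hh, invs1 hh, invss hh, pk_1s, pk_s1, p1_ss hh, zero_mul, zero_div, zero_add]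
  rw [Finset.mul_sum]
  refine Finset.sum_congr rfl fun l _ => ?_
  ring

theorem Cstu (s t u : Fin m) :
    christoffel (blk φ h) s.succ.succ t.succ.succ u.succ.succ y =
      christoffel (h (pr y)) s t u (tl y) := by
  unfold christoffel
  rw [sum2]
  simp only [invs0 hh, invs1 hh, invss hh, ps_ss hh, zero_mul, zero_div, zero_add]
  rfl

end chris

end Pool.Agent.BCS.H49
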