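import Pool.Agent.Helper49_BCS.BlkC

/-!
# Row BLK of squad BCS, part D: the curvature components (helper49)
-/

set_option linter.unusedSectionVars false

noncomputable section

open scoped ContDiff Topology
open Set

namespace Pool.Agent.BCS.H49

open Pool.Agent.SecondKind (Coord pd inv christoffel ricci curv)

variable {m : ℕ}

theorem sm_am {h : ℂ → Coord m} (hh : FibM h) (v : ℂ) (s t : Fin m) : Sm (Am h v s t) :=
  Sm.sum (F := fun l z x => hi h s l z x * Dd v (he h t l) z x)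
    (fun l => (sm_hi hh s l).mul ((sm_he hh t l).dd v))

theorem sm_e {φ : ℂ → ℝ} (hφ : ContDiff ℝ ∞ φ) :
    Sm (fun z (_ : Fin m → ℝ) => Real.exp (-2 * φ z)) :=
  Sm.base ((contDiff_const.mul hφ).exp)

theorem sm_bm {φ : ℂ → ℝ} {h : ℂ → Coord m} (hφ : ContDiff ℝ ∞ φ) (hh : FibM h) (v : ℂ)
    (s t : Fin m) : Sm (Bm φ h v s t) :=
  (Sm.cst _).mul ((sm_e hφ).mul ((sm_he hh s t).dd v))

theorem sm_chr {h : ℂ → Coord m} (hh : FibM h) (s j k : Fin m) :
    Sm (fun z t => christoffel (h z) s j k t) := by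
  have h1 : Sm (fun z t => ∑ l, hi h s l z t * (Dt j (he h k l) z t + Dt k (he h j l) z t
      - Dt l (he h j k) z t) / 2) := by
    refine Sm.sum (F := fun l z t => hi h s l z t * (Dt j (he h k l) z t + Dt k (he h j l) z t
      - Dt l (he h j k) z t) / 2) fun l => ?_
    exact (ContDiff.mul (sm_hi hh s l) (ContDiff.sub (ContDiff.add ((sm_he hh k l).dt j)
      ((sm_he hh j l).dt k)) ((sm_he hh j k).dt l))).div_const 2
  exact h1

theorem sm_p {φ : ℂ → ℝ} (hφ : ContDiff ℝ ∞ φ) (v : ℂ) :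
    ContDiff ℝ ∞ (fun z => fderiv ℝ φ z v) := H23.dir_smooth hφ v

theorem sm_dx {φ : ℂ → ℝ} (hφ : ContDiff ℝ ∞ φ) : Sm (fun z (_ : Fin m → ℝ) => dx φ z) :=
  Sm.base (sm_p hφ 1)

theorem sm_dy {φ : ℂ → ℝ} (hφ : ContDiff ℝ ∞ φ) : Sm (fun z (_ : Fin m → ℝ) => dy φ z) :=
  Sm.base (sm_p hφ Complex.I)

theorem sm_ndx {φ : ℂ → ℝ} (hφ : ContDiff ℝ ∞ φ) : Sm (fun z (_ : Fin m → ℝ) => -dx φ z) :=
  Sm.base (sm_p hφ 1).neg

theorem sm_ndy {φ : ℂ → ℝ} (hφ : ContDiff ℝ ∞ φ) : Sm (fun z (_ : Fin m → ℝ) => -dy φ z) :=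
  Sm.base (sm_p hφ Complex.I).neg

theorem Dd_neg {φ : ℂ → ℝ} (v : ℂ) (z : ℂ) (t : Fin m → ℝ) :
    Dd v (fun z (_ : Fin m → ℝ) => -φ z) z t = -fderiv ℝ φ z v := by
  unfold Dd
  rw [fderiv_fun_neg]
  rfl

section curvs

variable {φ : ℂ → ℝ} {h : ℂ → Coord m} (hφ : ContDiff ℝ ∞ φ) (hh : FibM h)
  (y : Fin (m + 2) → ℝ)

include hφ hh

theorem R0110 : curv (blk φ h) 0 1 1 0 y = -lap φ (pr y) := by
  have e1 : pd 0 (christoffel (blk φ h) 0 1 1) y = -dx (dx φ) (pr y) := by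
    have e : christoffel (blk φ h) 0 1 1 = Y (fun z _ => -dx φ z) := funext (C011 hφ hh)
    rw [e, pdY0 (sm_ndx hφ)]
    exact Dd_neg (φ := dx φ) 1 (pr y) (tl y)
  have e2 : pd 1 (christoffel (blk φ h) 0 0 1) y = dy (dy φ) (pr y) := by
    have e : christoffel (blk φ h) 0 0 1 = Y (fun z _ => dy φ z) := funext (C001 hφ hh)
    rw [e, pdY1 (sm_dy hφ)]
    rfl
  unfold curv
  rw [sum2, e1, e2]
  simp only [C000 hφ hh, C001 hφ hh, C010 hφ hh, C011 hφ hh, C101 hφ hh, C111 hφ hh,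
    C00s hφ hh, C01s hφ hh, zero_mul, sub_self, Finset.sum_const_zero]
  unfold lap
  ring

theorem R1001 : curv (blk φ h) 1 0 0 1 y = -lap φ (pr y) := by
  have e1 : pd 1 (christoffel (blk φ h) 1 0 0) y = -dy (dy φ) (pr y) := by
    have e : christoffel (blk φ h) 1 0 0 = Y (fun z _ => -dy φ z) := funext (C100 hφ hh)
    rw [e, pdY1 (sm_ndy hφ)]
    exact Dd_neg (φ := dy φ) Complex.I (pr y) (tl y)
  have e2 : pd 0 (christoffel (blk φ h) 1 1 0) y = dx (dx φ) (pr y) := by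
    have e : christoffel (blk φ h) 1 1 0 = Y (fun z _ => dx φ z) := funext (C110 hφ hh)
    rw [e, pdY0 (sm_dx hφ)]
    rfl
  unfold curv
  rw [sum2, e1, e2]
  simp only [C000 hφ hh, C010 hφ hh, C100 hφ hh, C110 hφ hh, C101 hφ hh, C111 hφ hh,
    C10s hφ hh, C11s hφ hh, zero_mul, sub_self, Finset.sum_const_zero]
  unfold lap
  ring

theorem Rs00s (s : Fin m) : curv (blk φ h) s.succ.succ 0 0 s.succ.succ y =
    -(1 / 2) * Dd 1 (Am h 1 s s) (pr y) (tl y) + (1 / 2) * Am h 1 s s (pr y) (tl y) * dx φ (pr y)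
      - (1 / 2) * Am h Complex.I s s (pr y) (tl y) * dy φ (pr y)
      - (1 / 4) * ∑ t, Am h 1 s t (pr y) (tl y) * Am h 1 t s (pr y) (tl y) := by
  have e1 : pd s.succ.succ (christoffel (blk φ h) s.succ.succ 0 0) y = 0 := by
    have e : christoffel (blk φ h) s.succ.succ 0 0 = fun _ => 0 := funext fun y => Cs00 hφ hh y s
    rw [e]
    exact pd_zero' y _
  have e2 : pd 0 (christoffel (blk φ h) s.succ.succ s.succ.succ 0) y =
      (1 / 2) * Dd 1 (Am h 1 s s) (pr y) (tl y) := by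
    have e : christoffel (blk φ h) s.succ.succ s.succ.succ 0 =
      Y (fun z t => (1 / 2) * Am h 1 s s z t) := funext fun y => Cst0 hφ hh y s s
    rw [e, pdY0 ((Sm.cst _).mul (sm_am hh 1 s s))]
    exact Dd_cmul (sm_am hh 1 s s) (1 / 2) 1 (pr y) (tl y)
  unfold curv
  rw [sum2, e1, e2]
  have e3 : ∀ t : Fin m, (christoffel (blk φ h) s.succ.succ s.succ.succ t.succ.succ y *
      christoffel (blk φ h) t.succ.succ 0 0 y - christoffel (blk φ h) s.succ.succ 0 t.succ.succ y *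
      christoffel (blk φ h) t.succ.succ s.succ.succ 0 y) =
      -(1 / 4) * (Am h 1 s t (pr y) (tl y) * Am h 1 t s (pr y) (tl y)) := by
    intro t
    rw [Cs00 hφ hh, Cs0t hφ hh, Cst0 hφ hh]
    ring
  simp only [e3]
  rw [← Finset.mul_sum]
  simp only [C000 hφ hh, C0s0 hφ hh, Cs00 hφ hh, Cst0 hφ hh, Cst1 hφ hh, C100 hφ hh, C1s0 hφ hh,
    Cs01 hφ hh]
  ring

theorem Rs11s (s : Fin m) : curv (blk φ h) s.succ.succ 1 1 s.succ.succ y =
    -(1 / 2) * Dd Complex.I (Am h Complex.I s s) (pr y) (tl y)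
      - (1 / 2) * Am h 1 s s (pr y) (tl y) * dx φ (pr y)
      + (1 / 2) * Am h Complex.I s s (pr y) (tl y) * dy φ (pr y)
      - (1 / 4) * ∑ t, Am h Complex.I s t (pr y) (tl y) * Am h Complex.I t s (pr y) (tl y) := by
  have e1 : pd s.succ.succ (christoffel (blk φ h) s.succ.succ 1 1) y = 0 := by
    have e : christoffel (blk φ h) s.succ.succ 1 1 = fun _ => 0 := funext fun y => Cs11 hφ hh y s
    rw [e]
    exact pd_zero' y _
  have e2 : pd 1 (christoffel (blk φ h) s.succ.succ s.succ.succ 1) y =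
      (1 / 2) * Dd Complex.I (Am h Complex.I s s) (pr y) (tl y) := by
    have e : christoffel (blk φ h) s.succ.succ s.succ.succ 1 =
      Y (fun z t => (1 / 2) * Am h Complex.I s s z t) := funext fun y => Cst1 hφ hh y s s
    rw [e, pdY1 ((Sm.cst _).mul (sm_am hh Complex.I s s))]
    exact Dd_cmul (sm_am hh Complex.I s s) (1 / 2) Complex.I (pr y) (tl y)
  unfold curv
  rw [sum2, e1, e2]
  have e3 : ∀ t : Fin m, (christoffel (blk φ h) s.succ.succ s.succ.succ t.succ.succ y *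
      christoffel (blk φ h) t.succ.succ 1 1 y - christoffel (blk φ h) s.succ.succ 1 t.succ.succ y *
      christoffel (blk φ h) t.succ.succ s.succ.succ 1 y) =
      -(1 / 4) * (Am h Complex.I s t (pr y) (tl y) * Am h Complex.I t s (pr y) (tl y)) := by
    intro t
    rw [Cs11 hφ hh, Cs1t hφ hh, Cst1 hφ hh]
    ring
  simp only [e3]
  rw [← Finset.mul_sum]
  simp only [C011 hφ hh, C0s1 hφ hh, Cs11 hφ hh, Cst0 hφ hh, Cst1 hφ hh, C111 hφ hh, C1s1 hφ hh,
    Cs10 hφ hh]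
  ring

theorem Db (v : ℂ) (j k : Fin m) (z : ℂ) (t : Fin m → ℝ) : Dd v (Bm φ h v j k) z t =
    Real.exp (-2 * φ z) * (fderiv ℝ φ z v * Dd v (he h j k) z t
      - (1 / 2) * Dd v (Dd v (he h j k)) z t) := by
  unfold Bm
  rw [Dd_cmul ((sm_e hφ).mul ((sm_he hh j k).dd v)), Dd_mul (sm_e hφ) ((sm_he hh j k).dd v),
    Dd_exp hφ]
  ring

theorem R0jk0 (j k : Fin m) : curv (blk φ h) 0 j.succ.succ k.succ.succ 0 y =
    Dd 1 (Bm φ h 1 j k) (pr y) (tl y) + dx φ (pr y) * Bm φ h 1 j k (pr y) (tl y)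
      + dy φ (pr y) * Bm φ h Complex.I j k (pr y) (tl y)
      - (1 / 2) * ∑ t, Bm φ h 1 j t (pr y) (tl y) * Am h 1 t k (pr y) (tl y) := by
  have e1 : pd 0 (christoffel (blk φ h) 0 j.succ.succ k.succ.succ) y =
      Dd 1 (Bm φ h 1 j k) (pr y) (tl y) := by
    have e : christoffel (blk φ h) 0 j.succ.succ k.succ.succ = Y (Bm φ h 1 j k) :=
      funext fun y => C0st hφ hh y j k
    rw [e, pdY0 (sm_bm hφ hh 1 j k)]
    rfl
  have e2 : pd j.succ.succ (christoffel (blk φ h) 0 0 k.succ.succ) y = 0 := by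
    have e : christoffel (blk φ h) 0 0 k.succ.succ = fun _ => 0 := funext fun y => C00s hφ hh y k
    rw [e]
    exact pd_zero' y _
  unfold curv
  rw [sum2, e1, e2]
  have e3 : ∀ t : Fin m, (christoffel (blk φ h) 0 0 t.succ.succ y *
      christoffel (blk φ h) t.succ.succ j.succ.succ k.succ.succ y -
      christoffel (blk φ h) 0 j.succ.succ t.succ.succ y *
      christoffel (blk φ h) t.succ.succ 0 k.succ.succ y) =
      -(1 / 2) * (Bm φ h 1 j t (pr y) (tl y) * Am h 1 t k (pr y) (tl y)) := by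
    intro t
    rw [C00s hφ hh, C0st hφ hh, Cs0t hφ hh]
    ring
  simp only [e3]
  rw [← Finset.mul_sum]
  simp only [C000 hφ hh, C0st hφ hh, C0s0 hφ hh, C00s hφ hh, C001 hφ hh, C1st hφ hh, C0s1 hφ hh,
    C10s hφ hh]
  ring

theorem R1jk1 (j k : Fin m) : curv (blk φ h) 1 j.succ.succ k.succ.succ 1 y =
    Dd Complex.I (Bm φ h Complex.I j k) (pr y) (tl y) + dx φ (pr y) * Bm φ h 1 j k (pr y) (tl y)
      + dy φ (pr y) * Bm φ h Complex.I j k (pr y) (tl y)
      - (1 / 2) * ∑ t, Bm φ h Complex.I j t (pr y) (tl y) * Am h Complex.I t k (pr y) (tl y) := by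
  have e1 : pd 1 (christoffel (blk φ h) 1 j.succ.succ k.succ.succ) y =
      Dd Complex.I (Bm φ h Complex.I j k) (pr y) (tl y) := by
    have e : christoffel (blk φ h) 1 j.succ.succ k.succ.succ = Y (Bm φ h Complex.I j k) :=
      funext fun y => C1st hφ hh y j k
    rw [e, pdY1 (sm_bm hφ hh Complex.I j k)]
    rfl
  have e2 : pd j.succ.succ (christoffel (blk φ h) 1 1 k.succ.succ) y = 0 := by
    have e : christoffel (blk φ h) 1 1 k.succ.succ = fun _ => 0 := funext fun y => C11s hφ hh y k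
    rw [e]
    exact pd_zero' y _
  unfold curv
  rw [sum2, e1, e2]
  have e3 : ∀ t : Fin m, (christoffel (blk φ h) 1 1 t.succ.succ y *
      christoffel (blk φ h) t.succ.succ j.succ.succ k.succ.succ y -
      christoffel (blk φ h) 1 j.succ.succ t.succ.succ y *
      christoffel (blk φ h) t.succ.succ 1 k.succ.succ y) =
      -(1 / 2) * (Bm φ h Complex.I j t (pr y) (tl y) * Am h Complex.I t k (pr y) (tl y)) := by
    intro t
    rw [C11s hφ hh, C1st hφ hh, Cs1t hφ hh]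
    ring
  simp only [e3]
  rw [← Finset.mul_sum]
  simp only [C111 hφ hh, C0st hφ hh, C1s1 hφ hh, C01s hφ hh, C110 hφ hh, C1st hφ hh, C1s0 hφ hh,
    C11s hφ hh]
  ring

theorem Rsjks (s j k : Fin m) : curv (blk φ h) s.succ.succ j.succ.succ k.succ.succ s.succ.succ y =
    curv (h (pr y)) s j k s (tl y)
      + (1 / 2) * (Am h 1 s s (pr y) (tl y) * Bm φ h 1 j k (pr y) (tl y)
        - Am h 1 s j (pr y) (tl y) * Bm φ h 1 s k (pr y) (tl y))
      + (1 / 2) * (Am h Complex.I s s (pr y) (tl y) * Bm φ h Complex.I j k (pr y) (tl y)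
        - Am h Complex.I s j (pr y) (tl y) * Bm φ h Complex.I s k (pr y) (tl y)) := by
  have e1 : ∀ a b c d : Fin m, pd a.succ.succ (christoffel (blk φ h) b.succ.succ c.succ.succ
      d.succ.succ) y = pd a (christoffel (h (pr y)) b c d) (tl y) := by
    intro a b c d
    have e : christoffel (blk φ h) b.succ.succ c.succ.succ d.succ.succ =
      Y (fun z t => christoffel (h z) b c d t) := funext fun y => Cstu hφ hh y b c d
    rw [e, pdYs (sm_chr hh b c d)]
    rfl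
  unfold curv
  rw [sum2, e1, e1]
  simp only [Cstu hφ hh, Cst0 hφ hh, Cst1 hφ hh, C0st hφ hh, C1st hφ hh]
  ring

end curvs

end Pool.Agent.BCS.H49
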